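import Pool.Agent.RCD.Defs

/-!
The equations of the surface, and their meaning in terms of the 3 x 3 matrix `mat`.
-/

open MvPolynomial

namespace Pool.Agent.RCD

/-- index set of the nine homogeneous coordinates -/
abbrev Idx : Type := Fin 3 × Fin 3

section general

variable {A : Type} [CommRing A]

/-- `s + w t` coordinates: the part `s` of the entry `(i,j)` -/
def sPart (τ : A) (x : Idx → A) (i j : Fin 3) : A :=
  if i < j then x (i, j) else if i = j then x (i, j) else x (j, i) + τ * x (i, j)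

/-- `s + w t` coordinates: the part `t` of the entry `(i,j)` -/
def tPart (x : Idx → A) (i j : Fin 3) : A :=
  if i < j then x (j, i) else if i = j then 0 else - x (i, j)

/-- the matrix `M` -/
def mat (w₁ w₂ : A) (x : Idx → A) (i j : Fin 3) : A :=
  if i < j then x (i, j) + w₁ * x (j, i) else if i = j then x (i, j)
  else x (j, i) + w₂ * x (i, j)

/-- the inverse of `mat`; here `c * (w₁ - w₂) = 1` -/
def toX (w₁ c : A) (M : Fin 3 → Fin 3 → A) (ij : Idx) : A :=
  if ij.1 < ij.2 then M ij.1 ij.2 - w₁ * (c * (M ij.1 ij.2 - M ij.2 ij.1))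
  else if ij.1 = ij.2 then M ij.1 ij.2 else c * (M ij.2 ij.1 - M ij.1 ij.2)

lemma mat_toX {w₁ w₂ c : A} (hc : c * (w₁ - w₂) = 1) (M : Fin 3 → Fin 3 → A) (i j : Fin 3) :
    mat w₁ w₂ (toX w₁ c M) i j = M i j := by
  fin_cases i <;> fin_cases j <;> simp [mat, toX]
  · linear_combination (M 1 0 - M 0 1) * hc
  · linear_combination (M 2 0 - M 0 2) * hc
  · linear_combination (M 2 1 - M 1 2) * hc

lemma toX_mat {w₁ w₂ c : A} (hc : c * (w₁ - w₂) = 1) (x : Idx → A) :
    toX w₁ c (mat w₁ w₂ x) = x := by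
  funext ⟨i, j⟩
  fin_cases i <;> fin_cases j <;> simp [mat, toX]
  all_goals first
    | linear_combination (x (1, 0)) * hc
    | linear_combination (x (2, 0)) * hc
    | linear_combination (x (2, 1)) * hc
    | linear_combination (-w₁ * x (1, 0)) * hc
    | linear_combination (-w₁ * x (2, 0)) * hc
    | linear_combination (-w₁ * x (2, 1)) * hc

lemma mat_eq {w₁ w₂ τ : A} (h : w₁ + w₂ = τ) (x : Idx → A) (i j : Fin 3) :
    mat w₁ w₂ x i j = sPart τ x i j + w₁ * tPart x i j := by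
  unfold mat sPart tPart
  split_ifs
  · rfl
  · ring
  · linear_combination x (i, j) * h

lemma mat_eq' {w₁ w₂ τ : A} (h : w₁ + w₂ = τ) (x : Idx → A) (i j : Fin 3) :
    mat w₁ w₂ x j i = sPart τ x i j + w₂ * tPart x i j := by
  rcases lt_trichotomy i j with h1 | h1 | h1
  · have h2 : ¬ j < i := not_lt.mpr h1.le
    have h3 : ¬ j = i := fun e => (ne_of_lt h1) e.symm
    simp only [mat, sPart, tPart, h1, h2, h3, if_true, if_false]
  · subst h1
    simp [mat, sPart, tPart]
  · have h2 : ¬ i < j := not_lt.mpr h1.le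
    have h3 : ¬ i = j := fun e => (ne_of_lt h1) e.symm
    simp only [mat, sPart, tPart, h1, h2, h3, if_true, if_false]
    linear_combination x (i, j) * h

/-- first part of a 2 x 2 minor -/
def minRe (ν : A) (s t : Fin 3 → Fin 3 → A) (i j k l : Fin 3) : A :=
  (s i j * s k l - ν * (t i j * t k l)) - (s i l * s k j - ν * (t i l * t k j))

/-- second part of a 2 x 2 minor -/
def minIm (τ : A) (s t : Fin 3 → Fin 3 → A) (i j k l : Fin 3) : A :=
  (s i j * t k l + t i j * s k l + τ * (t i j * t k l))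
    - (s i l * t k j + t i l * s k j + τ * (t i l * t k j))

/-- first part of an entry of `M * M^(q)` -/
def herRe (q : ℕ) (ν : A) (s t : Fin 3 → Fin 3 → A) (i k : Fin 3) : A :=
  ∑ j, (s i j * (s j k) ^ q - ν * (t i j * (t j k) ^ q))

/-- second part of an entry of `M * M^(q)` -/
def herIm (q : ℕ) (τ : A) (s t : Fin 3 → Fin 3 → A) (i k : Fin 3) : A :=
  ∑ j, (s i j * (t j k) ^ q + t i j * (s j k) ^ q + τ * (t i j * (t j k) ^ q))

lemma min_add {w τ ν : A} (hw : w * w = τ * w - ν) (s t : Fin 3 → Fin 3 → A)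
    (i j k l : Fin 3) :
    minRe ν s t i j k l + w * minIm τ s t i j k l =
      (s i j + w * t i j) * (s k l + w * t k l) - (s i l + w * t i l) * (s k j + w * t k j) := by
  unfold minRe minIm
  linear_combination (t i l * t k j - t i j * t k l) * hw

lemma her_add {p n : ℕ} [Fact p.Prime] [CharP A p] {w τ ν : A} (hw : w * w = τ * w - ν)
    (hq : w ^ (p ^ n) = w) (s t : Fin 3 → Fin 3 → A) (i k : Fin 3) :
    herRe (p ^ n) ν s t i k + w * herIm (p ^ n) τ s t i k =
      ∑ j, (s i j + w * t i j) * (s j k + w * t j k) ^ (p ^ n) := by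
  unfold herRe herIm
  rw [Finset.mul_sum, ← Finset.sum_add_distrib]
  refine Finset.sum_congr rfl fun j _ => ?_
  rw [add_pow_char_pow, mul_pow, hq]
  linear_combination (- (t i j * t j k ^ (p ^ n))) * hw

/-- a pair of equations over the base, and their two conjugate combinations -/
lemma pair_iff {w₁ w₂ c : A} (hc : c * (w₁ - w₂) = 1) (a b : A) :
    (a = 0 ∧ b = 0) ↔ (a + w₁ * b = 0 ∧ a + w₂ * b = 0) := by
  constructor
  · rintro ⟨rfl, rfl⟩; simp
  · rintro ⟨h1, h2⟩
    have hb : b = 0 := by linear_combination (-b) * hc + c * (h1 - h2)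
    refine ⟨?_, hb⟩
    rw [hb] at h1; simpa using h1

end general

section eqs

variable (p : ℕ) (q : ℕ) (τ ν : ZMod p)

/-- the equations, over the prime field -/
noncomputable def eqs0 : Set (MvPolynomial Idx (ZMod p)) :=
  (Set.range fun a : Idx × Idx =>
    minRe (C ν) (sPart (C τ) X) (tPart X) a.1.1 a.1.2 a.2.1 a.2.2) ∪
  (Set.range fun a : Idx × Idx =>
    minIm (C τ) (sPart (C τ) X) (tPart X) a.1.1 a.1.2 a.2.1 a.2.2) ∪
  (Set.range fun a : Idx => herRe q (C ν) (sPart (C τ) X) (tPart X) a.1 a.2) ∪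
  (Set.range fun a : Idx => herIm q (C τ) (sPart (C τ) X) (tPart X) a.1 a.2)

lemma eqs0_finite : (eqs0 p q τ ν).Finite := by
  unfold eqs0
  exact (((Set.finite_range _).union (Set.finite_range _)).union (Set.finite_range _)).union
    (Set.finite_range _)

lemma sPart_homog (i j : Fin 3) :
    (sPart (C τ) (X : Idx → MvPolynomial Idx (ZMod p)) i j).IsHomogeneous 1 := by
  unfold sPart
  split_ifs
  · exact isHomogeneous_X _ _
  · exact isHomogeneous_X _ _
  · refine (isHomogeneous_X _ _).add ?_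
    simpa using (isHomogeneous_C Idx τ).mul (isHomogeneous_X (ZMod p) (i, j))

lemma tPart_homog (i j : Fin 3) :
    (tPart (X : Idx → MvPolynomial Idx (ZMod p)) i j).IsHomogeneous 1 := by
  unfold tPart
  split_ifs
  · exact isHomogeneous_X _ _
  · exact isHomogeneous_zero _ _ _
  · exact (isHomogeneous_X _ _).neg

lemma eqs0_homog : ∀ f ∈ eqs0 p q τ ν, ∃ d : ℕ, f.IsHomogeneous d := by
  have hS := sPart_homog p τ
  have hT := tPart_homog p
  have hC : ∀ a : ZMod p, (C a : MvPolynomial Idx (ZMod p)).IsHomogeneous 0 :=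
    fun a => isHomogeneous_C Idx a
  intro f hf
  unfold eqs0 at hf
  rcases hf with ((⟨a, rfl⟩ | ⟨a, rfl⟩) | ⟨a, rfl⟩) | ⟨a, rfl⟩
  · refine ⟨2, ?_⟩
    refine ((((hS _ _).mul (hS _ _)).sub ?_).sub (((hS _ _).mul (hS _ _)).sub ?_))
    · simpa using (hC ν).mul ((hT _ _).mul (hT _ _))
    · simpa using (hC ν).mul ((hT _ _).mul (hT _ _))
  · refine ⟨2, ?_⟩
    refine (((((hS _ _).mul (hT _ _)).add ((hT _ _).mul (hS _ _))).add ?_).sub
      ((((hS _ _).mul (hT _ _)).add ((hT _ _).mul (hS _ _))).add ?_))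
    · simpa using (hC τ).mul ((hT _ _).mul (hT _ _))
    · simpa using (hC τ).mul ((hT _ _).mul (hT _ _))
  · refine ⟨1 + q, ?_⟩
    refine IsHomogeneous.sum _ _ _ fun j _ => ?_
    refine ((hS _ _).mul (by simpa using (hS _ _).pow q)).sub ?_
    simpa using (hC ν).mul ((hT a.1 j).mul ((hT j a.2).pow q))
  · refine ⟨1 + q, ?_⟩
    refine IsHomogeneous.sum _ _ _ fun j _ => ?_
    refine (((hS _ _).mul (by simpa using (hT _ _).pow q)).add
      ((hT _ _).mul (by simpa using (hS _ _).pow q))).add ?_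
    simpa using (hC τ).mul ((hT a.1 j).mul ((hT j a.2).pow q))

variable {p q τ ν}

lemma aeval_sPart {A : Type} [CommRing A] [Algebra (ZMod p) A] (x : Idx → A) (i j : Fin 3) :
    aeval x (sPart (C τ) (X : Idx → MvPolynomial Idx (ZMod p)) i j) =
      sPart (algebraMap (ZMod p) A τ) x i j := by
  unfold sPart
  split_ifs <;> simp

lemma aeval_tPart {A : Type} [CommRing A] [Algebra (ZMod p) A] (x : Idx → A) (i j : Fin 3) :
    aeval x (tPart (X : Idx → MvPolynomial Idx (ZMod p)) i j) = tPart x i j := by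
  unfold tPart
  split_ifs <;> simp

lemma eqs0_iff_parts {A : Type} [CommRing A] [Algebra (ZMod p) A] (x : Idx → A) :
    (∀ f ∈ eqs0 p q τ ν, aeval x f = 0) ↔
      (∀ i j k l, minRe (algebraMap (ZMod p) A ν) (sPart (algebraMap (ZMod p) A τ) x)
          (tPart x) i j k l = 0 ∧
        minIm (algebraMap (ZMod p) A τ) (sPart (algebraMap (ZMod p) A τ) x)
          (tPart x) i j k l = 0) ∧
      (∀ i k, herRe q (algebraMap (ZMod p) A ν) (sPart (algebraMap (ZMod p) A τ) x)
          (tPart x) i k = 0 ∧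
        herIm q (algebraMap (ZMod p) A τ) (sPart (algebraMap (ZMod p) A τ) x)
          (tPart x) i k = 0) := by
  have e1 : ∀ i j k l, aeval x (minRe (C ν) (sPart (C τ) X) (tPart X) i j k l) =
      minRe (algebraMap (ZMod p) A ν) (sPart (algebraMap (ZMod p) A τ) x) (tPart x) i j k l := by
    intro i j k l
    simp only [minRe, map_sub, map_mul, aeval_sPart, aeval_tPart, aeval_C]
  have e2 : ∀ i j k l, aeval x (minIm (C τ) (sPart (C τ) X) (tPart X) i j k l) =
      minIm (algebraMap (ZMod p) A τ) (sPart (algebraMap (ZMod p) A τ) x) (tPart x) i j k l := by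
    intro i j k l
    simp only [minIm, map_sub, map_add, map_mul, aeval_sPart, aeval_tPart, aeval_C]
  have e3 : ∀ i k, aeval x (herRe q (C ν) (sPart (C τ) X) (tPart X) i k) =
      herRe q (algebraMap (ZMod p) A ν) (sPart (algebraMap (ZMod p) A τ) x) (tPart x) i k := by
    intro i k
    simp only [herRe, map_sub, map_sum, map_mul, map_pow, aeval_sPart, aeval_tPart, aeval_C]
  have e4 : ∀ i k, aeval x (herIm q (C τ) (sPart (C τ) X) (tPart X) i k) =
      herIm q (algebraMap (ZMod p) A τ) (sPart (algebraMap (ZMod p) A τ) x) (tPart x) i k := by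
    intro i k
    simp only [herIm, map_add, map_sum, map_mul, map_pow, aeval_sPart, aeval_tPart, aeval_C]
  constructor
  · intro h
    refine ⟨fun i j k l => ⟨?_, ?_⟩, fun i k => ⟨?_, ?_⟩⟩
    · rw [← e1]; exact h _ (Or.inl (Or.inl (Or.inl ⟨((i, j), (k, l)), rfl⟩)))
    · rw [← e2]; exact h _ (Or.inl (Or.inl (Or.inr ⟨((i, j), (k, l)), rfl⟩)))
    · rw [← e3]; exact h _ (Or.inl (Or.inr ⟨(i, k), rfl⟩))
    · rw [← e4]; exact h _ (Or.inr ⟨(i, k), rfl⟩)
  · rintro ⟨h1, h2⟩ f hf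
    rcases hf with ((⟨a, rfl⟩ | ⟨a, rfl⟩) | ⟨a, rfl⟩) | ⟨a, rfl⟩
    · rw [e1]; exact (h1 _ _ _ _).1
    · rw [e2]; exact (h1 _ _ _ _).2
    · rw [e3]; exact (h2 _ _).1
    · rw [e4]; exact (h2 _ _).2

/-- the equations in terms of the matrix -/
lemma eqs0_iff {p n : ℕ} [Fact p.Prime] {τ ν : ZMod p} {A : Type} [CommRing A] [CharP A p]
    [Algebra (ZMod p) A] {w₁ w₂ c : A} (hc : c * (w₁ - w₂) = 1)
    (hτ : w₁ + w₂ = algebraMap (ZMod p) A τ) (hν : w₁ * w₂ = algebraMap (ZMod p) A ν)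
    (h₁ : w₁ ^ (p ^ n) = w₁) (h₂ : w₂ ^ (p ^ n) = w₂) (x : Idx → A) :
    (∀ f ∈ eqs0 p (p ^ n) τ ν, aeval x f = 0) ↔
      (∀ i j k l, mat w₁ w₂ x i j * mat w₁ w₂ x k l = mat w₁ w₂ x i l * mat w₁ w₂ x k j) ∧
      (∀ i k, ∑ j, mat w₁ w₂ x i j * (mat w₁ w₂ x j k) ^ (p ^ n) = 0) ∧
      (∀ i k, ∑ j, mat w₁ w₂ x j i * (mat w₁ w₂ x k j) ^ (p ^ n) = 0) := by
  rw [eqs0_iff_parts]
  have k1 : w₁ * w₁ = algebraMap (ZMod p) A τ * w₁ - algebraMap (ZMod p) A ν := by
    rw [← hτ, ← hν]; ring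
  have k2 : w₂ * w₂ = algebraMap (ZMod p) A τ * w₂ - algebraMap (ZMod p) A ν := by
    rw [← hτ, ← hν]; ring
  have key1 : ∀ i j k l, (minRe (algebraMap (ZMod p) A ν) (sPart (algebraMap (ZMod p) A τ) x)
          (tPart x) i j k l = 0 ∧
        minIm (algebraMap (ZMod p) A τ) (sPart (algebraMap (ZMod p) A τ) x)
          (tPart x) i j k l = 0) ↔
        (mat w₁ w₂ x i j * mat w₁ w₂ x k l - mat w₁ w₂ x i l * mat w₁ w₂ x k j = 0 ∧
        mat w₁ w₂ x j i * mat w₁ w₂ x l k - mat w₁ w₂ x l i * mat w₁ w₂ x j k = 0) := by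
    intro i j k l
    rw [pair_iff hc, min_add k1, min_add k2]
    simp only [← mat_eq hτ, ← mat_eq' hτ]
  have key2 : ∀ i k, (herRe (p ^ n) (algebraMap (ZMod p) A ν)
          (sPart (algebraMap (ZMod p) A τ) x) (tPart x) i k = 0 ∧
        herIm (p ^ n) (algebraMap (ZMod p) A τ) (sPart (algebraMap (ZMod p) A τ) x)
          (tPart x) i k = 0) ↔
        (∑ j, mat w₁ w₂ x i j * (mat w₁ w₂ x j k) ^ (p ^ n) = 0 ∧
        ∑ j, mat w₁ w₂ x j i * (mat w₁ w₂ x k j) ^ (p ^ n) = 0) := by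
    intro i k
    rw [pair_iff hc, her_add k1 h₁, her_add k2 h₂]
    simp only [← mat_eq hτ, ← mat_eq' hτ]
  simp only [key1, key2]
  constructor
  · rintro ⟨h1, h2⟩
    exact ⟨fun i j k l => sub_eq_zero.mp (h1 i j k l).1, fun i k => (h2 i k).1,
      fun i k => (h2 i k).2⟩
  · rintro ⟨h1, h2, h3⟩
    refine ⟨fun i j k l => ⟨sub_eq_zero.mpr (h1 i j k l), sub_eq_zero.mpr ?_⟩,
      fun i k => ⟨h2 i k, h3 i k⟩⟩
    rw [h1 j i l k]
    ring

end eqs

end Pool.Agent.RCD
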