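import Mathlib

/-!
The descent: a primitive vector `w` of polynomials over a finite field with `q > 2` elements and
an involution `σ` which satisfies `∑ σ(w i) * (w i)^q = 0` is constant.
-/

open Polynomial

namespace Pool.Agent.RCD

section part

variable {R : Type} [CommRing R]

/-- the `j`-th component of `f` in its decomposition `f = ∑ t^j g_j(t^q)` -/
noncomputable def part (q j : ℕ) (f : R[X]) : R[X] :=
  ∑ m ∈ Finset.range (f.natDegree + 1), monomial m (f.coeff (q * m + j))

lemma coeff_part {q : ℕ} (hq : 0 < q) (j : ℕ) (f : R[X]) (m : ℕ) :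
    (part q j f).coeff m = f.coeff (q * m + j) := by
  unfold part
  simp only [finsetSum_coeff, coeff_monomial, Finset.sum_ite_eq', Finset.mem_range]
  split_ifs with h
  · rfl
  · symm
    apply coeff_eq_zero_of_natDegree_lt
    have : m ≤ q * m := Nat.le_mul_of_pos_left m hq
    omega

lemma natDegree_part_le {q : ℕ} (hq : 0 < q) (j : ℕ) (f : R[X]) :
    (part q j f).natDegree ≤ f.natDegree / q := by
  rw [natDegree_le_iff_coeff_eq_zero]
  intro N hN
  rw [coeff_part hq]
  apply coeff_eq_zero_of_natDegree_lt
  have := Nat.lt_mul_of_div_lt hN hq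
  rw [mul_comm] at this
  omega

lemma part_add {q : ℕ} (hq : 0 < q) (j : ℕ) (f g : R[X]) :
    part q j (f + g) = part q j f + part q j g := by
  ext m
  simp [coeff_part hq]

lemma part_zero {q : ℕ} (hq : 0 < q) (j : ℕ) : part q j (0 : R[X]) = 0 := by
  ext m
  simp [coeff_part hq]

lemma part_mul_expand {q : ℕ} (hq : 0 < q) {j : ℕ} (hj : j < q) (a b : R[X]) :
    part q j (a * expand R q b) = part q j a * b := by
  induction b using Polynomial.induction_on' with
  | add b₁ b₂ h₁ h₂ => rw [map_add, mul_add, part_add hq, h₁, h₂, mul_add]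
  | monomial s r =>
    ext m
    rw [coeff_part hq, expand_monomial, ← C_mul_X_pow_eq_monomial, ← C_mul_X_pow_eq_monomial,
      mul_left_comm a, mul_left_comm (part q j a), coeff_C_mul, coeff_C_mul, coeff_mul_X_pow',
      coeff_mul_X_pow', coeff_part hq]
    by_cases h : s ≤ m
    · have h1 : s * q ≤ q * m + j := by
        have : s * q ≤ m * q := Nat.mul_le_mul_right q h
        rw [mul_comm m q] at this
        omega
      rw [if_pos h, if_pos h1]
      congr 2
      obtain ⟨d, rfl⟩ := Nat.exists_eq_add_of_le h
      have e : s + d - s = d := by omega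
      rw [e, mul_add, mul_comm s q]
      omega
    · have h1 : ¬ s * q ≤ q * m + j := by
        have h2 : m + 1 ≤ s := by omega
        have h3 : (m + 1) * q ≤ s * q := Nat.mul_le_mul_right q h2
        have h4 : (m + 1) * q = q * m + q := by ring
        omega
      rw [if_neg h, if_neg h1]

lemma sum_part {q : ℕ} (hq : 0 < q) (f : R[X]) :
    f = ∑ j ∈ Finset.range q, X ^ j * expand R q (part q j f) := by
  ext n
  rw [finsetSum_coeff]
  have h0 : n % q < q := Nat.mod_lt _ hq
  rw [Finset.sum_eq_single (n % q)]
  · rw [coeff_X_pow_mul', if_pos (Nat.mod_le _ _), coeff_expand hq, if_pos (Nat.dvd_sub_mod n),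
      coeff_part hq]
    congr 1
    have h1 : q * ((n - n % q) / q) = n - n % q := Nat.mul_div_cancel' (Nat.dvd_sub_mod n)
    rw [h1]
    have := Nat.mod_le n q
    omega
  · intro j hj hne
    rw [Finset.mem_range] at hj
    rw [coeff_X_pow_mul']
    split_ifs with h1
    · rw [coeff_expand hq]
      split_ifs with h2
      · exfalso
        apply hne
        obtain ⟨d, hd⟩ := h2
        have : n = q * d + j := by omega
        rw [this, Nat.mul_add_mod, Nat.mod_eq_of_lt hj]
      · rfl
    · rfl
  · intro h
    exact absurd (Finset.mem_range.mpr h0) h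

lemma part_sum {q : ℕ} (hq : 0 < q) (j : ℕ) {ι : Type} (s : Finset ι) (f : ι → R[X]) :
    part q j (∑ i ∈ s, f i) = ∑ i ∈ s, part q j (f i) := by
  classical
  induction s using Finset.induction_on with
  | empty => simp [part_zero hq]
  | insert a s ha ih => rw [Finset.sum_insert ha, Finset.sum_insert ha, part_add hq, ih]

end part

section descent

variable {F : Type} [Field F]

/-- `w` is a primitive vector -/
def Prim (w : Fin 3 → F[X]) : Prop := ∃ a : Fin 3 → F[X], ∑ i, a i * w i = 1

/-- every nonzero vector of polynomials is a multiple of a primitive one -/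
lemma exists_prim (v : Fin 3 → F[X]) (hv : v ≠ 0) :
    ∃ (d : F[X]) (u : Fin 3 → F[X]), d ≠ 0 ∧ Prim u ∧ ∀ i, v i = d * u i := by
  obtain ⟨d, hd⟩ := (IsPrincipalIdealRing.principal (Ideal.span (Set.range v))).principal
  have hmem : ∀ i, v i ∈ Ideal.span ({d} : Set F[X]) := by
    intro i
    have : v i ∈ Ideal.span (Set.range v) := Ideal.subset_span ⟨i, rfl⟩
    rw [hd] at this
    exact this
  have hu : ∀ i, ∃ u, v i = d * u := fun i => by
    obtain ⟨u, hu⟩ := Ideal.mem_span_singleton'.mp (hmem i)
    exact ⟨u, by rw [← hu, mul_comm]⟩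
  choose u hu using hu
  have hd0 : d ≠ 0 := by
    rintro rfl
    apply hv
    funext i
    rw [hu i, zero_mul]; rfl
  refine ⟨d, u, hd0, ?_, hu⟩
  have : d ∈ Ideal.span (Set.range v) := by
    rw [hd]; exact Ideal.mem_span_singleton_self d
  rw [Ideal.mem_span_range_iff_exists_fun] at this
  obtain ⟨a, ha⟩ := this
  refine ⟨a, ?_⟩
  apply mul_left_cancel₀ hd0
  rw [mul_one, Finset.mul_sum]
  conv_rhs => rw [← ha]
  refine Finset.sum_congr rfl fun i _ => ?_
  rw [hu i]; ring

/-- the cross product -/
noncomputable def crs (v u : Fin 3 → F[X]) : Fin 3 → F[X] :=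
  ![v 1 * u 2 - v 2 * u 1, v 2 * u 0 - v 0 * u 2, v 0 * u 1 - v 1 * u 0]

/-- a vector parallel to a primitive vector is a multiple of it -/
lemma Prim.exists_mul {w v : Fin 3 → F[X]} (hw : Prim w)
    (h : ∀ i j, w i * v j = w j * v i) : ∃ g : F[X], ∀ i, v i = g * w i := by
  obtain ⟨a, ha⟩ := hw
  refine ⟨∑ i, a i * v i, fun j => ?_⟩
  calc v j = (∑ i, a i * w i) * v j := by rw [ha, one_mul]
    _ = (∑ i, a i * v i) * w j := by
      rw [Finset.sum_mul, Finset.sum_mul]
      refine Finset.sum_congr rfl fun i _ => ?_
      linear_combination a i * h i j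

lemma Prim.ne_zero {w : Fin 3 → F[X]} (hw : Prim w) : w ≠ 0 := by
  rintro rfl
  obtain ⟨a, ha⟩ := hw
  simp at ha

/-- a vector orthogonal to two vectors is parallel to their cross product -/
lemma crs_parallel {w v u : Fin 3 → F[X]} (hv : ∑ i, v i * w i = 0) (hu : ∑ i, u i * w i = 0)
    (i j : Fin 3) : w i * crs v u j = w j * crs v u i := by
  simp only [Fin.sum_univ_three] at hv hu
  fin_cases i <;> fin_cases j <;> simp [crs]
  · linear_combination (-u 2) * hv + (v 2) * hu
  · linear_combination (u 1) * hv - (v 1) * hu
  · linear_combination (u 2) * hv - (v 2) * hu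
  · linear_combination (-u 0) * hv + (v 0) * hu
  · linear_combination (-u 1) * hv + (v 1) * hu
  · linear_combination (u 0) * hv - (v 0) * hu

lemma natDegree_crs_le {v u : Fin 3 → F[X]} {a b : ℕ} (hv : ∀ i, (v i).natDegree ≤ a)
    (hu : ∀ i, (u i).natDegree ≤ b) (i : Fin 3) : (crs v u i).natDegree ≤ a + b := by
  have h : ∀ i j, (v i * u j).natDegree ≤ a + b := fun i j =>
    natDegree_mul_le.trans (add_le_add (hv i) (hu j))
  fin_cases i <;> simp only [crs] <;>
    exact (natDegree_sub_le _ _).trans (max_le (h _ _) (h _ _))

lemma crs_eq_zero_iff {v u : Fin 3 → F[X]} (h : crs v u = 0) (i j : Fin 3) :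
    v i * u j = v j * u i := by
  have h0 : v 1 * u 2 - v 2 * u 1 = 0 := congrFun h 0
  have h1 : v 2 * u 0 - v 0 * u 2 = 0 := congrFun h 1
  have h2 : v 0 * u 1 - v 1 * u 0 = 0 := congrFun h 2
  fin_cases i <;> fin_cases j <;> simp only [Fin.zero_eta, Fin.mk_one, Fin.reduceFinMk]
  · linear_combination h2
  · linear_combination - h1
  · linear_combination - h2
  · linear_combination h0
  · linear_combination h1
  · linear_combination - h0

/-- the descent -/
theorem descent [Fintype F] {q : ℕ} (hcard : Fintype.card F = q) (hq : 2 < q) (σ : F →+* F)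
    (hσ : ∀ x, σ (σ x) = x) : ∀ (n : ℕ) (w : Fin 3 → F[X]), Prim w →
      (∀ i, (w i).natDegree ≤ n) → ∑ i, (w i).map σ * (w i) ^ q = 0 →
      ∀ i, (w i).natDegree = 0 := by
  intro n
  induction n using Nat.strong_induction_on with
  | _ n ih =>
    intro w hw hdeg heq
    rcases Nat.eq_zero_or_pos n with rfl | hn
    · intro i; exact Nat.le_zero.mp (hdeg i)
    have hq0 : 0 < q := by omega
    have hmm : ∀ f : F[X], (f.map σ).map σ = f := by
      intro f
      rw [Polynomial.map_map]
      have : σ.comp σ = RingHom.id F := RingHom.ext fun x => hσ x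
      rw [this, Polynomial.map_id]
    have hexp : ∀ f : F[X], expand F q f = f ^ q := by
      intro f
      subst hcard
      exact FiniteField.expand_card f
    set P : Fin 3 → F[X] := fun i => (w i).map σ with hP
    have hPdeg : ∀ i, (P i).natDegree = (w i).natDegree := fun i =>
      natDegree_map_eq_of_injective σ.injective _
    set v : ℕ → Fin 3 → F[X] := fun j i => part q j (P i) with hv
    have hvdeg : ∀ j i, (v j i).natDegree ≤ n / q := fun j i =>
      (natDegree_part_le hq0 j (P i)).trans
        (Nat.div_le_div_right ((hPdeg i).le.trans (hdeg i)))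
    have horth : ∀ j < q, ∑ i, v j i * w i = 0 := by
      intro j hj
      have h1 : part q j (∑ i, P i * expand F q (w i)) = 0 := by
        have : ∑ i, P i * expand F q (w i) = 0 := by
          rw [← heq]
          refine Finset.sum_congr rfl fun i _ => ?_
          rw [hexp]
        rw [this, part_zero hq0]
      rw [part_sum hq0] at h1
      rw [← h1]
      refine Finset.sum_congr rfl fun i _ => ?_
      rw [part_mul_expand hq0 hj]
    have hlt : 2 * (n / q) < n := by
      have h1 : n / q * q ≤ n := Nat.div_mul_le_self n q
      have h2 : n / q * 3 ≤ n / q * q := Nat.mul_le_mul_left _ hq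
      omega
    by_cases hA : ∃ j < q, ∃ k < q, crs (v j) (v k) ≠ 0
    · obtain ⟨j, hj, k, hk, hne⟩ := hA
      obtain ⟨g, hg⟩ := hw.exists_mul (v := crs (v j) (v k))
        (fun a b => crs_parallel (horth j hj) (horth k hk) a b)
      have hg0 : g ≠ 0 := by
        rintro rfl
        apply hne
        funext i
        rw [hg i, zero_mul]; rfl
      refine ih (2 * (n / q)) hlt w hw (fun i => ?_) heq
      by_cases hwi : w i = 0
      · rw [hwi]; simp
      · have h1 := natDegree_crs_le (hvdeg j) (hvdeg k) i
        rw [hg i, natDegree_mul hg0 hwi] at h1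
        omega
    · push Not at hA
      have hPne : ∃ j < q, v j ≠ 0 := by
        by_contra hcon
        push Not at hcon
        apply hw.ne_zero
        funext i
        have h1 : P i = 0 := by
          rw [sum_part hq0 (P i)]
          refine Finset.sum_eq_zero fun j hj => ?_
          have : part q j (P i) = 0 := congrFun (hcon j (Finset.mem_range.mp hj)) i
          rw [this, map_zero, mul_zero]
        have h2 := congrArg (Polynomial.map σ) h1
        simp only [hP, hmm, Polynomial.map_zero] at h2
        exact h2
      obtain ⟨j0, hj0, hne⟩ := hPne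
      obtain ⟨d, u, hd, hu, hdu⟩ := exists_prim (v j0) hne
      have hall : ∀ j, ∃ g : F[X], j < q → ∀ i, v j i = g * u i := by
        intro j
        by_cases hj : j < q
        · have h1 : ∀ a b, u a * v j b = u b * v j a := by
            intro a b
            have h2 := crs_eq_zero_iff (hA j0 hj0 j hj) a b
            rw [hdu a, hdu b] at h2
            apply mul_left_cancel₀ hd
            linear_combination h2
          obtain ⟨g, hg⟩ := hu.exists_mul h1
          exact ⟨g, fun _ => hg⟩
        · exact ⟨0, fun h => absurd h hj⟩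
      choose g hg using hall
      set D : F[X] := ∑ j ∈ Finset.range q, X ^ j * expand F q (g j) with hD
      have hPD : ∀ i, P i = D * expand F q (u i) := by
        intro i
        conv_lhs => rw [sum_part hq0 (P i)]
        rw [hD, Finset.sum_mul]
        refine Finset.sum_congr rfl fun j hj => ?_
        have h1 : part q j (P i) = g j * u i := hg j (Finset.mem_range.mp hj) i
        rw [h1, map_mul]; ring
      obtain ⟨a, ha⟩ := hw
      have hDu : IsUnit D := by
        have h1 := congrArg (Polynomial.map σ) ha
        rw [Polynomial.map_sum, Polynomial.map_one] at h1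
        refine IsUnit.of_mul_eq_one (∑ i, (a i).map σ * expand F q (u i)) ?_
        rw [← h1, Finset.mul_sum]
        refine Finset.sum_congr rfl fun i _ => ?_
        rw [Polynomial.map_mul]
        have : (w i).map σ = D * expand F q (u i) := hPD i
        rw [this]; ring
      have hD0 : D ≠ 0 := hDu.ne_zero
      have hDdeg : D.natDegree = 0 := natDegree_eq_zero_of_isUnit hDu
      have hudeg : ∀ i, (u i).natDegree * q = (w i).natDegree := by
        intro i
        by_cases hui : u i = 0
        · have h1 : P i = 0 := by rw [hPD i, hui, map_zero, mul_zero]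
          rw [← hPdeg i, h1, hui]; simp
        · have hex : expand F q (u i) ≠ 0 := by
            rw [Ne, expand_eq_zero hq0]; exact hui
          rw [← hPdeg i, hPD i, natDegree_mul hD0 hex, hDdeg, natDegree_expand]; simp
      have huw : ∑ i, u i * w i = 0 := by
        have h1 := horth j0 hj0
        apply mul_left_cancel₀ hd
        rw [mul_zero, ← h1, Finset.mul_sum]
        refine Finset.sum_congr rfl fun i _ => ?_
        rw [hdu i]; ring
      have hwexp : ∀ i, w i = D.map σ * ((u i).map σ) ^ q := by
        intro i
        have h1 : (P i).map σ = w i := hmm (w i)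
        rw [← h1, hPD i, Polynomial.map_mul, hexp, Polynomial.map_pow]
      have hDσ : D.map σ ≠ 0 := by
        intro h
        apply hD0
        have := congrArg (Polynomial.map σ) h
        rwa [hmm, Polynomial.map_zero] at this
      have hnew : ∑ i, ((u i).map σ).map σ * ((u i).map σ) ^ q = 0 := by
        apply mul_left_cancel₀ hDσ
        rw [mul_zero, ← huw, Finset.mul_sum]
        refine Finset.sum_congr rfl fun i _ => ?_
        conv_rhs => rw [hwexp i]
        rw [hmm]; ring
      have hprim : Prim fun i => (u i).map σ := by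
        obtain ⟨b, hb⟩ := hu
        refine ⟨fun i => (b i).map σ, ?_⟩
        have h1 := congrArg (Polynomial.map σ) hb
        rw [Polynomial.map_sum, Polynomial.map_one] at h1
        rw [← h1]
        refine Finset.sum_congr rfl fun i _ => ?_
        rw [Polynomial.map_mul]
      have hdd : ∀ i, ((u i).map σ).natDegree ≤ n / q := by
        intro i
        rw [natDegree_map_eq_of_injective σ.injective]
        rw [Nat.le_div_iff_mul_le hq0, hudeg i]
        exact hdeg i
      have hfin := ih (n / q) (Nat.div_lt_self hn (by omega)) _ hprim hdd hnew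
      intro i
      have h1 := hfin i
      rw [natDegree_map_eq_of_injective σ.injective] at h1
      rw [← hudeg i, h1, zero_mul]

end descent

end Pool.Agent.RCD
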