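import Pool.Agent.RCD.Alg
import Pool.Agent.RCD.Descent

/-!
The rational points of the surface over `F_p(t)`.
-/

open Polynomial

namespace Pool.Agent.RCD

lemma exists_omega (p : ℕ) [Fact p.Prime] :
    ∃ (τ ν : ZMod p) (ω : GaloisField p 2), ω ^ p ≠ ω ∧
      ω + ω ^ p = algebraMap (ZMod p) (GaloisField p 2) τ ∧
      ω * ω ^ p = algebraMap (ZMod p) (GaloisField p 2) ν := by
  classical
  have hp : p.Prime := Fact.out
  have hcard : Nat.card (GaloisField p 2) = p ^ 2 := GaloisField.card p 2 (by norm_num)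
  have _ : Finite (GaloisField p 2) := inferInstance
  let _ : Fintype (GaloisField p 2) := Fintype.ofFinite _
  have hcard' : Fintype.card (GaloisField p 2) = p ^ 2 := by
    rw [← hcard, Nat.card_eq_fintype_card]
  have hex : ∃ ω : GaloisField p 2, ω ^ p ≠ ω := by
    by_contra hcon
    push Not at hcon
    have hne : (X ^ p - X : (GaloisField p 2)[X]) ≠ 0 :=
      FiniteField.X_pow_card_sub_X_ne_zero _ hp.one_lt
    have hle := Polynomial.card_roots' (X ^ p - X : (GaloisField p 2)[X])
    rw [FiniteField.X_pow_card_sub_X_natDegree_eq _ hp.one_lt] at hle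
    have hsub : (Finset.univ : Finset (GaloisField p 2)) ⊆
        (X ^ p - X : (GaloisField p 2)[X]).roots.toFinset := by
      intro x _
      rw [Multiset.mem_toFinset, mem_roots hne]
      simp [hcon x]
    have h1 := Finset.card_le_card hsub
    rw [Finset.card_univ, hcard'] at h1
    have h2 := Multiset.toFinset_card_le (X ^ p - X : (GaloisField p 2)[X]).roots
    have h3 : p < p ^ 2 := by
      have := hp.two_le
      nlinarith
    omega
  obtain ⟨ω, hω⟩ := hex
  have hpp : ω ^ (p ^ 2) = ω := by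
    rw [← hcard']; exact FiniteField.pow_card ω
  have hpp' : (ω ^ p) ^ p = ω := by
    rw [← pow_mul, ← sq]; exact hpp
  have key : ∀ x : GaloisField p 2, x ^ p = x →
      ∃ a : ZMod p, x = algebraMap (ZMod p) (GaloisField p 2) a := by
    intro x hx
    have h1 := (Subfield.mem_bot_iff_pow_eq_self (GaloisField p 2) p).mpr hx
    rw [Subfield.bot_eq_of_zMod_algebra p] at h1
    obtain ⟨a, ha⟩ := h1
    exact ⟨a, ha.symm⟩
  obtain ⟨τ, hτ⟩ := key (ω + ω ^ p) (by rw [add_pow_char, hpp']; ring)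
  obtain ⟨ν, hν⟩ := key (ω * ω ^ p) (by rw [mul_pow, hpp']; ring)
  exact ⟨τ, ν, ω, hω, hτ, hν⟩

/-- a nonzero solution matrix is a multiple of a constant one -/
lemma matrix_const {F : Type} [Field F] [Fintype F] {q : ℕ} (hcard : Fintype.card F = q)
    (hq : 2 < q) (σ : F →+* F) (hσ : ∀ x, σ (σ x) = x) (M : Fin 3 → Fin 3 → F[X])
    (hM : ∃ i j, M i j ≠ 0) (hconj : ∀ i j, (M i j).map σ = M j i)
    (hmin : ∀ i j k l, M i j * M k l = M i l * M k j)
    (hher : ∀ i k, ∑ j, M i j * (M j k) ^ q = 0) :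
    ∃ (κ : F[X]) (e : Fin 3 → Fin 3 → F), κ ≠ 0 ∧ ∀ i j, M i j = κ * C (e i j) := by
  obtain ⟨a, b, hab⟩ := hM
  have hmm : ∀ f : F[X], (f.map σ).map σ = f := by
    intro f
    rw [Polynomial.map_map]
    have : σ.comp σ = RingHom.id F := RingHom.ext fun x => hσ x
    rw [this, Polynomial.map_id]
  obtain ⟨d, w, hd, hw, hdw⟩ := exists_prim (fun i => M i b) (fun h => hab (congrFun h a))
  have hex : ∀ l, ∃ g : F[X], ∀ i, M i l = g * w i := by
    intro l
    apply hw.exists_mul (v := fun i => M i l)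
    intro i j
    apply mul_left_cancel₀ hd
    have h1 := hmin i b j l
    have h2 := hdw i
    have h3 := hdw j
    rw [h2, h3] at h1
    linear_combination h1
  choose g hg using hex
  obtain ⟨i0, hi0⟩ : ∃ i, w i ≠ 0 := by
    by_contra hcon
    push Not at hcon
    exact hw.ne_zero (funext hcon)
  have hwb : Prim fun i => (w i).map σ := by
    obtain ⟨b', hb⟩ := hw
    refine ⟨fun i => (b' i).map σ, ?_⟩
    have h1 := congrArg (Polynomial.map σ) hb
    rw [Polynomial.map_sum, Polynomial.map_one] at h1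
    rw [← h1]
    refine Finset.sum_congr rfl fun i _ => ?_
    rw [Polynomial.map_mul]
  have hgw : ∀ i j, (w i).map σ * g j = (w j).map σ * g i := by
    intro i j
    apply mul_left_cancel₀ hi0
    have h1 : g j * w i0 = (g i0).map σ * (w j).map σ := by
      rw [← hg j i0, ← Polynomial.map_mul, ← hg i0 j, hconj]
    have h2 : g i * w i0 = (g i0).map σ * (w i).map σ := by
      rw [← hg i i0, ← Polynomial.map_mul, ← hg i0 i, hconj]
    linear_combination (w i).map σ * h1 - (w j).map σ * h2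
  obtain ⟨κ, hκ⟩ := hwb.exists_mul hgw
  have hMκ : ∀ i l, M i l = κ * (w i * (w l).map σ) := by
    intro i l
    rw [hg l i, hκ l]; ring
  have hκ0 : κ ≠ 0 := by
    rintro rfl
    apply hab
    rw [hMκ, zero_mul]
  have hi0' : (w i0).map σ ≠ 0 := by
    intro h
    apply hi0
    have := congrArg (Polynomial.map σ) h
    rwa [hmm, Polynomial.map_zero] at this
  have heq : ∑ j, (w j).map σ * (w j) ^ q = 0 := by
    have h1 := hher i0 i0
    have h2 : ∑ j, M i0 j * (M j i0) ^ q =
        (κ * κ ^ q * w i0 * ((w i0).map σ) ^ q) * ∑ j, (w j).map σ * (w j) ^ q := by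
      rw [Finset.mul_sum]
      refine Finset.sum_congr rfl fun j _ => ?_
      rw [hMκ, hMκ, mul_pow, mul_pow]; ring
    rw [h2] at h1
    rcases mul_eq_zero.mp h1 with h3 | h3
    · exfalso
      have : κ * κ ^ q * w i0 * ((w i0).map σ) ^ q ≠ 0 :=
        mul_ne_zero (mul_ne_zero (mul_ne_zero hκ0 (pow_ne_zero _ hκ0)) hi0)
          (pow_ne_zero _ hi0')
      exact this h3
    · exact h3
  have hdesc := descent hcard hq σ hσ (∑ i, (w i).natDegree) w hw
    (fun i => Finset.single_le_sum (f := fun i => (w i).natDegree)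
      (fun _ _ => Nat.zero_le _) (Finset.mem_univ i)) heq
  have hwC : ∀ i, w i = C ((w i).coeff 0) := fun i => eq_C_of_natDegree_eq_zero (hdesc i)
  refine ⟨κ, fun i j => (w i).coeff 0 * σ ((w j).coeff 0), hκ0, fun i j => ?_⟩
  rw [hMκ i j, hwC i, hwC j, Polynomial.map_C, C_mul]

/-- polynomial points are constant -/
lemma poly_point_const {p : ℕ} [Fact p.Prime] {F : Type} [Field F] [CharP F p]
    [Algebra (ZMod p) F] [Fintype F] (hcard' : Fintype.card F = p ^ 2) {τ ν : ZMod p} {ω : F}
    (hω : ω ^ p ≠ ω) (hτ : ω + ω ^ p = algebraMap (ZMod p) F τ)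
    (hν : ω * ω ^ p = algebraMap (ZMod p) F ν)
    (x : Idx → (ZMod p)[X]) (hx : x ≠ 0)
    (heqs : ∀ f ∈ eqs0 p (p ^ 2) τ ν, MvPolynomial.aeval x f = 0) :
    ∃ (a : Idx) (l : ZMod p) (v : Idx → ZMod p), x a ≠ 0 ∧ l ≠ 0 ∧ v a ≠ 0 ∧
      ∀ j, C l * x j = x a * C (v j) := by
  classical
  have hp : p.Prime := Fact.out
  have hpp : ∀ z : F, (z ^ p) ^ p = z := by
    intro z
    rw [← pow_mul, ← sq, ← hcard']; exact FiniteField.pow_card z
  have hpp2 : ∀ z : F, z ^ (p ^ 2) = z := by
    intro z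
    rw [← hcard']; exact FiniteField.pow_card z
  let σ : F →+* F := frobenius F p
  have hσ : ∀ z, σ (σ z) = z := fun z => hpp z
  have hq : 2 < p ^ 2 := by
    have := hp.two_le
    nlinarith
  -- the polynomial ring over `F`
  have hsub : ω - ω ^ p ≠ 0 := sub_ne_zero.mpr (Ne.symm hω)
  set w₁ : F[X] := C ω with hw1
  set w₂ : F[X] := C (ω ^ p) with hw2
  set c : F[X] := C ((ω - ω ^ p)⁻¹) with hcdef
  have hc : c * (w₁ - w₂) = 1 := by
    rw [hcdef, hw1, hw2, ← C_sub, ← C_mul, inv_mul_cancel₀ hsub, C_1]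
  have haF : ∀ z : ZMod p, algebraMap (ZMod p) F[X] z = C (algebraMap (ZMod p) F z) := by
    intro z; rfl
  have hτ' : w₁ + w₂ = algebraMap (ZMod p) F[X] τ := by
    rw [haF, ← hτ, C_add]
  have hν' : w₁ * w₂ = algebraMap (ZMod p) F[X] ν := by
    rw [haF, ← hν, C_mul]
  have h₁ : w₁ ^ (p ^ 2) = w₁ := by rw [hw1, ← C_pow, hpp2]
  have h₂ : w₂ ^ (p ^ 2) = w₂ := by rw [hw2, ← C_pow, hpp2]
  let Φ : (ZMod p)[X] →ₐ[ZMod p] F[X] := Polynomial.mapAlg (ZMod p) F
  have hΦ : ∀ f, Φ f = f.map (algebraMap (ZMod p) F) := fun f => rfl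
  have hΦinj : Function.Injective Φ := by
    intro f g hfg
    rw [hΦ, hΦ] at hfg
    exact Polynomial.map_injective _ (algebraMap (ZMod p) F).injective hfg
  let y : Idx → F[X] := fun j => Φ (x j)
  have hy : ∀ f ∈ eqs0 p (p ^ 2) τ ν, MvPolynomial.aeval y f = 0 := by
    intro f hf
    have h1 := MvPolynomial.comp_aeval_apply (f := x) Φ f
    change (MvPolynomial.aeval fun i => Φ (x i)) f = 0
    rw [← h1, heqs f hf, map_zero]
  rw [eqs0_iff hc hτ' hν' h₁ h₂] at hy
  obtain ⟨hmin, hher, -⟩ := hy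
  have hyσ : ∀ j, (y j).map σ = y j := by
    intro j
    change (Polynomial.map (algebraMap (ZMod p) F) (x j)).map σ =
      Polynomial.map (algebraMap (ZMod p) F) (x j)
    rw [Polynomial.map_map]
    congr 1
    ext z
    change (algebraMap (ZMod p) F z) ^ p = algebraMap (ZMod p) F z
    rw [← map_pow, ZMod.pow_card]
  have hy0 : y ≠ 0 := by
    intro h
    apply hx
    funext j
    apply hΦinj
    have := congrFun h j
    rw [Pi.zero_apply, map_zero]
    exact this
  obtain ⟨κ, e, hκ, he⟩ := matrix_const hcard' hq σ hσ (mat w₁ w₂ y) (by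
      by_contra hcon
      push Not at hcon
      apply hy0
      rw [← toX_mat hc y]
      have : mat w₁ w₂ y = fun _ _ => 0 := by
        funext i j; exact hcon i j
      rw [this]
      funext ij
      simp [toX]) (by
      intro i j
      have e1 : w₁.map σ = w₂ := by rw [hw1, Polynomial.map_C]; rfl
      have e2 : w₂.map σ = w₁ := by
        rw [hw2, Polynomial.map_C]
        change C ((ω ^ p) ^ p) = C ω
        rw [hpp]
      rcases lt_trichotomy i j with h1 | h1 | h1
      · have h2 : ¬ j < i := not_lt.mpr h1.le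
        have h3 : ¬ j = i := fun e => (ne_of_lt h1) e.symm
        simp only [mat, h1, h2, h3, if_true, if_false, Polynomial.map_add, Polynomial.map_mul,
          hyσ, e1]
      · subst h1
        simp [mat, hyσ]
      · have h2 : ¬ i < j := not_lt.mpr h1.le
        have h3 : ¬ i = j := fun e => (ne_of_lt h1) e.symm
        simp only [mat, h1, h2, h3, if_true, if_false, Polynomial.map_add, Polynomial.map_mul,
          hyσ, e2]) hmin hher
  have hz : ∃ z : Idx → F, ∀ j, y j = κ * C (z j) := by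
    refine ⟨toX ω ((ω - ω ^ p)⁻¹) e, fun j => ?_⟩
    rw [← toX_mat hc y]
    unfold toX
    rw [he, he]
    split_ifs
    · simp only [C_sub, C_mul, hw1, hcdef]; ring
    · rfl
    · simp only [C_sub, C_mul, hcdef]; ring
  obtain ⟨z, hz⟩ := hz
  obtain ⟨a, ha⟩ : ∃ a, y a ≠ 0 := by
    by_contra hcon
    push Not at hcon
    exact hy0 (funext hcon)
  have hxa : x a ≠ 0 := by
    intro h
    apply ha
    change Φ (x a) = 0
    rw [h, map_zero]
  have hza : z a ≠ 0 := by
    intro h
    apply ha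
    rw [hz a, h, C_0, mul_zero]
  refine ⟨a, (x a).leadingCoeff, fun j => (x j).coeff (x a).natDegree, hxa,
    leadingCoeff_ne_zero.mpr hxa, ?_, fun j => ?_⟩
  · exact leadingCoeff_ne_zero.mpr hxa
  · apply hΦinj
    rw [map_mul, map_mul]
    have hCz : C (z a) ≠ 0 := C_ne_zero.mpr hza
    apply mul_right_cancel₀ hCz
    have h1 : y j * C (z a) = y a * C (z j) := by rw [hz j, hz a]; ring
    have h2 := congrArg (fun f => coeff f (x a).natDegree) h1
    simp only [coeff_mul_C] at h2
    have hco : ∀ i m, (y i).coeff m = algebraMap (ZMod p) F ((x i).coeff m) := by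
      intro i m
      change (Polynomial.map (algebraMap (ZMod p) F) (x i)).coeff m = _
      rw [coeff_map]
    rw [hco, hco] at h2
    have hΦC : ∀ r : ZMod p, Φ (C r) = C (algebraMap (ZMod p) F r) := by
      intro r; rw [hΦ, Polynomial.map_C]
    rw [hΦC, hΦC]
    have h3 : C (algebraMap (ZMod p) F ((x j).coeff (x a).natDegree)) * C (z a) =
        C (algebraMap (ZMod p) F ((x a).leadingCoeff)) * C (z j) := by
      rw [← C_mul, ← C_mul, h2]; rfl
    have h4 : Φ (x j) = y j := rfl
    have h5 : Φ (x a) = y a := rfl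
    rw [h4, h5]
    linear_combination (C (algebraMap (ZMod p) F ((x a).leadingCoeff))) * h1 - y a * h3

end Pool.Agent.RCD
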