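import Mathlib

/-!
Projective schemes over a field given by finitely many homogeneous equations, and the classical
notions (smooth, geometrically irreducible, rationally connected, Zariski density of the set of
rational points) for them.
-/

open MvPolynomial
open scoped LinearAlgebra.Projectivization

namespace Pool.Agent.RCD

/-- A closed subscheme of the projective space `P(k^ι)` with homogeneous coordinates indexed by
`ι`: the scheme `Proj (k[x_i : i ∈ ι] / (eqs))`, given by a finite set of homogeneous
equations. -/
structure ProjScheme (k : Type) [Field k] (ι : Type) where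
  /-- the defining equations -/
  eqs : Set (MvPolynomial ι k)
  /-- there are finitely many of them -/
  finite_eqs : eqs.Finite
  /-- each of them is homogeneous -/
  homogeneous : ∀ f ∈ eqs, ∃ d : ℕ, f.IsHomogeneous d

namespace ProjScheme

variable {k : Type} [Field k] {ι : Type} (X : ProjScheme k ι)

/-- `x : ι → L` is a vector of homogeneous coordinates of an `L`-point of `X`. -/
def IsPoint (L : Type) [Field L] [Algebra k L] (x : ι → L) : Prop :=
  x ≠ 0 ∧ ∀ f ∈ X.eqs, aeval x f = 0

/-- The set `X(k)` of `k`-rational points, a subset of the set `ℙ k (ι → k)` of lines in `k^ι`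
(a point `P` is tested on its representative `P.rep`; since the equations are homogeneous the
choice of the representative does not matter). -/
def rationalPoints : Set (ℙ k (ι → k)) := {P | X.IsPoint k P.rep}

/-- A set `S` of `k`-rational points is Zariski dense in the `k`-scheme `X`: every homogeneous
polynomial over `k` that vanishes on `S` vanishes at all geometric points of `X`. -/
def ZariskiDense (S : Set (ℙ k (ι → k))) : Prop :=
  ∀ G : MvPolynomial ι k, (∃ d : ℕ, G.IsHomogeneous d) → (∀ P ∈ S, eval P.rep G = 0) →
    ∀ x : ι → AlgebraicClosure k, X.IsPoint (AlgebraicClosure k) x → aeval x G = 0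

/-- The defining equations of `X`, read over the algebraic closure. -/
def geomEqs : Set (MvPolynomial ι (AlgebraicClosure k)) :=
  MvPolynomial.map (algebraMap k (AlgebraicClosure k)) '' X.eqs

/-- `X` is smooth over `k`, of pure dimension `d` (Jacobian criterion): near every geometric point
`x`, the ideal of `X` in `P(k^ι)` is generated by `c = codim X` elements `f 0, …, f (c - 1)` whose
gradients at `x` are linearly independent.  Here `c + d = dim P(k^ι) = #ι - 1`, and near `x` means
on the open set where the polynomial `h`, with `h(x) ≠ 0`, does not vanish. -/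
def SmoothOfDim [Fintype ι] (d : ℕ) : Prop :=
  ∀ x : ι → AlgebraicClosure k, X.IsPoint (AlgebraicClosure k) x →
    ∃ (c : ℕ) (f : Fin c → MvPolynomial ι (AlgebraicClosure k))
      (h : MvPolynomial ι (AlgebraicClosure k)),
      c + d + 1 = Fintype.card ι ∧
      (∀ i, f i ∈ Ideal.span X.geomEqs) ∧
      LinearIndependent (AlgebraicClosure k) (fun i => fun j : ι => eval x (pderiv j (f i))) ∧
      eval x h ≠ 0 ∧
      ∀ g ∈ X.geomEqs, h * g ∈ Ideal.span (Set.range f)

/-- The variety of geometric points of `X` is nonempty and irreducible.  (A smooth scheme is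
geometrically reduced, so for a smooth `X` this says that `X` is geometrically integral.) -/
def GeomIrreducible : Prop :=
  (∃ x, X.IsPoint (AlgebraicClosure k) x) ∧
  ∀ G H : MvPolynomial ι (AlgebraicClosure k),
    (∃ d : ℕ, G.IsHomogeneous d) → (∃ d : ℕ, H.IsHomogeneous d) →
    (∀ x, X.IsPoint (AlgebraicClosure k) x → eval x (G * H) = 0) →
    (∀ x, X.IsPoint (AlgebraicClosure k) x → eval x G = 0) ∨
      (∀ x, X.IsPoint (AlgebraicClosure k) x → eval x H = 0)

/-- `X` is geometrically unirational: over the algebraic closure there is a dominant rational map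
from a projective space `P^N` to `X`, given by forms `ρ j` of the same degree `e` in `N + 1`
variables, not all zero, which satisfy the equations of `X`, and such that a homogeneous
polynomial that vanishes on the image vanishes on `X`. -/
def GeomUnirational : Prop :=
  ∃ (N e : ℕ) (ρ : ι → MvPolynomial (Fin (N + 1)) (AlgebraicClosure k)),
    (∀ j, (ρ j).IsHomogeneous e) ∧ (∃ j, ρ j ≠ 0) ∧ (∀ f ∈ X.eqs, aeval ρ f = 0) ∧
    ∀ G : MvPolynomial ι (AlgebraicClosure k), (∃ d : ℕ, G.IsHomogeneous d) → aeval ρ G = 0 →
      ∀ x, X.IsPoint (AlgebraicClosure k) x → eval x G = 0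

/-- There is a morphism from `P^1` to `X` over the algebraic closure whose image contains the
points with homogeneous coordinates `x` and `y`: it is given by forms `γ j` of the same degree `e`
in two variables, without a common zero, which satisfy the equations of `X`. -/
def OnRationalCurve (x y : ι → AlgebraicClosure k) : Prop :=
  ∃ (e : ℕ) (γ : ι → MvPolynomial (Fin 2) (AlgebraicClosure k)),
    (∀ j, (γ j).IsHomogeneous e) ∧
    (∀ s : Fin 2 → AlgebraicClosure k, s ≠ 0 → ∃ j, eval s (γ j) ≠ 0) ∧
    (∀ f ∈ X.eqs, aeval γ f = 0) ∧
    (∃ (s : Fin 2 → AlgebraicClosure k) (c : AlgebraicClosure k),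
      s ≠ 0 ∧ c ≠ 0 ∧ ∀ j, eval s (γ j) = c * x j) ∧
    (∃ (s : Fin 2 → AlgebraicClosure k) (c : AlgebraicClosure k),
      s ≠ 0 ∧ c ≠ 0 ∧ ∀ j, eval s (γ j) = c * y j)

/-- `X` is rationally connected: there is a nonempty open subset of `X × X` over the algebraic
closure (the set where a polynomial `B` in the two sets of coordinates does not vanish) such that
for every `(x, y)` in it there is a morphism from `P^1` to `X` whose image contains `x` and
`y`. -/
def RationallyConnected : Prop :=
  ∃ B : MvPolynomial (ι ⊕ ι) (AlgebraicClosure k),
    (∃ x y, X.IsPoint (AlgebraicClosure k) x ∧ X.IsPoint (AlgebraicClosure k) y ∧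
      eval (Sum.elim x y) B ≠ 0) ∧
    ∀ x y, X.IsPoint (AlgebraicClosure k) x → X.IsPoint (AlgebraicClosure k) y →
      eval (Sum.elim x y) B ≠ 0 → X.OnRationalCurve x y

end ProjScheme

end Pool.Agent.RCD
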