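import Pool.Agent.RCD.Smooth

/-!
The set of rational points is not dense.
-/

open MvPolynomial
open scoped LinearAlgebra.Projectivization

namespace Pool.Agent.RCD

lemma irreducible_prod {k : Type} [Field k] {ι : Type} {X : ProjScheme k ι}
    (hX : X.GeomIrreducible) {κ : Type} (s : Finset κ)
    (G : κ → MvPolynomial ι (AlgebraicClosure k))
    (hG : ∀ i ∈ s, ∃ d : ℕ, (G i).IsHomogeneous d)
    (h : ∀ x, X.IsPoint (AlgebraicClosure k) x → eval x (∏ i ∈ s, G i) = 0) :
    ∃ i ∈ s, ∀ x, X.IsPoint (AlgebraicClosure k) x → eval x (G i) = 0 := by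
  classical
  induction s using Finset.induction_on with
  | empty =>
    obtain ⟨x, hx⟩ := hX.1
    have := h x hx
    simp at this
  | insert a s ha ih =>
    have hprod : ∃ d : ℕ, (∏ i ∈ s, G i).IsHomogeneous d := by
      have h1 : ∀ i ∈ s, ∃ d : ℕ, (G i).IsHomogeneous d := fun i hi =>
        hG i (Finset.mem_insert_of_mem hi)
      choose! d hd using h1
      exact ⟨∑ i ∈ s, d i, IsHomogeneous.prod s G d hd⟩
    rcases hX.2 (G a) (∏ i ∈ s, G i) (hG a (Finset.mem_insert_self a s)) hprod (by
      intro x hx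
      have := h x hx
      rwa [Finset.prod_insert ha] at this) with h1 | h1
    · exact ⟨a, Finset.mem_insert_self a s, h1⟩
    · obtain ⟨i, hi, hi2⟩ := ih (fun i hi => hG i (Finset.mem_insert_of_mem hi)) h1
      exact ⟨i, Finset.mem_insert_of_mem hi, hi2⟩

/-- a finite set of rational points is not dense -/
theorem not_dense {k : Type} [Field k] {ι : Type} {V : ProjScheme k ι}
    (hX : V.GeomIrreducible) {x y : ι → AlgebraicClosure k}
    (hx : V.IsPoint (AlgebraicClosure k) x) (hy : V.IsPoint (AlgebraicClosure k) y)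
    {a b : ι} (hxy : x a * y b ≠ x b * y a) {S : Set (ℙ k (ι → k))} (hS : S.Finite) :
    ¬ V.ZariskiDense S := by
  classical
  intro hdense
  -- every rational point is distinguished from a geometric point by a linear form
  have hP : ∀ P : ℙ k (ι → k), ∃ ab : ι × ι, ∃ z, V.IsPoint (AlgebraicClosure k) z ∧
      z ab.1 * algebraMap k (AlgebraicClosure k) (P.rep ab.2) -
        z ab.2 * algebraMap k (AlgebraicClosure k) (P.rep ab.1) ≠ 0 := by
    intro P
    by_contra hcon
    push Not at hcon
    set r : ι → AlgebraicClosure k := fun i => algebraMap k (AlgebraicClosure k) (P.rep i) with hr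
    have hx1 : ∀ i j, x i * r j = x j * r i := fun i j => sub_eq_zero.mp (hcon (i, j) x hx)
    have hy1 : ∀ i j, y i * r j = y j * r i := fun i j => sub_eq_zero.mp (hcon (i, j) y hy)
    obtain ⟨i, hi⟩ : ∃ i, r i ≠ 0 := by
      by_contra hc
      push Not at hc
      apply P.rep_nonzero
      funext i
      exact (map_eq_zero (algebraMap k (AlgebraicClosure k))).mp (hc i)
    apply hxy
    have h1 : x a * y b * (r i * r i) = x b * y a * (r i * r i) := by
      have e1 := hx1 a i
      have e2 := hy1 b i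
      have e3 := hx1 b i
      have e4 := hy1 a i
      calc x a * y b * (r i * r i) = (x a * r i) * (y b * r i) := by ring
        _ = (x i * r a) * (y i * r b) := by rw [e1, e2]
        _ = (x i * r b) * (y i * r a) := by ring
        _ = (x b * r i) * (y a * r i) := by rw [e3, e4]
        _ = x b * y a * (r i * r i) := by ring
    exact mul_right_cancel₀ (mul_ne_zero hi hi) h1
  choose ab z hz hne using hP
  let lf : ℙ k (ι → k) → MvPolynomial ι k := fun P =>
    C (P.rep (ab P).2) * X (ab P).1 - C (P.rep (ab P).1) * X (ab P).2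
  have hlf : ∀ P, (lf P).IsHomogeneous 1 := fun P =>
    (isHomogeneous_C_mul_X _ _).sub (isHomogeneous_C_mul_X _ _)
  let G : MvPolynomial ι k := ∏ P ∈ hS.toFinset, lf P
  have hG : ∃ d : ℕ, G.IsHomogeneous d :=
    ⟨∑ _P ∈ hS.toFinset, 1, IsHomogeneous.prod _ _ _ fun P _ => hlf P⟩
  have hvan : ∀ P ∈ S, eval P.rep G = 0 := by
    intro P hP
    have hmem : P ∈ hS.toFinset := by rw [Set.Finite.mem_toFinset]; exact hP
    change eval P.rep (∏ P ∈ hS.toFinset, lf P) = 0
    rw [map_prod]
    apply Finset.prod_eq_zero hmem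
    simp only [lf, map_sub, map_mul, eval_C, eval_X]
    ring
  have h1 := hdense G hG hvan
  obtain ⟨P, -, hP⟩ := irreducible_prod hX hS.toFinset
    (fun P => MvPolynomial.map (algebraMap k (AlgebraicClosure k)) (lf P))
    (fun P _ => ⟨1, (hlf P).map _⟩) (by
      intro x hx
      have h2 := h1 x hx
      rw [← map_prod, eval_map]
      exact h2)
  apply hne P
  have h2 := hP (z P) (hz P)
  simp only [lf, map_sub, map_mul, map_C, map_X, eval_C, eval_X] at h2
  rw [← h2]; ring

lemma isPoint_mk {k : Type} [Field k] {ι : Type} (X : ProjScheme k ι) {x : ι → k}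
    (hx : X.IsPoint k x) : Projectivization.mk k x hx.1 ∈ X.rationalPoints := by
  obtain ⟨a, ha⟩ := Projectivization.exists_smul_eq_mk_rep k x hx.1
  refine ⟨Projectivization.rep_nonzero _, fun f hf => ?_⟩
  obtain ⟨d, hd⟩ := X.homogeneous f hf
  rw [← ha]
  have h1 := aeval_scale hd (a : k) x
  have h2 : (a • x) = fun j => (a : k) * x j := by
    funext j; rfl
  rw [h2, h1, hx.2 f hf, mul_zero]

/-- the main theorem -/
theorem main (p : ℕ) [Fact p.Prime] :
    Infinite (RatFunc (ZMod p)) ∧
    ∃ X : ProjScheme (RatFunc (ZMod p)) (Fin 3 × Fin 3),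
      X.SmoothOfDim 2 ∧ X.GeomIrreducible ∧ X.GeomUnirational ∧ X.RationallyConnected ∧
      X.rationalPoints.Nonempty ∧ X.rationalPoints.Finite ∧
      ¬ X.ZariskiDense X.rationalPoints := by
  obtain ⟨τ, ν, ω, hω, hτ, hν⟩ := exists_omega p
  have hcard : ∃ ω : GaloisField p 2, ω ^ p ≠ ω ∧
      ω + ω ^ p = algebraMap (ZMod p) (GaloisField p 2) τ ∧
      ω * ω ^ p = algebraMap (ZMod p) (GaloisField p 2) ν := ⟨ω, hω, hτ, hν⟩
  obtain ⟨W⟩ := exists_wdata hcard
  have hfin := surf_points_finite hcard
  refine ⟨Infinite.of_injective _ (RatFunc.algebraMap_injective (ZMod p)), surf p τ ν,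
    surf_smooth W, surf_geomIrreducible W, surf_geomUnirational W, surf_rationallyConnected W,
    ?_, hfin, ?_⟩
  · obtain ⟨x, hx⟩ := surf_point_exists (p := p) (τ := τ) (ν := ν)
    exact ⟨_, isPoint_mk _ hx⟩
  · obtain ⟨u, u', hu, hdet⟩ := exists_pair (p := p)
    have hq : p ^ 2 ≠ 0 := pow_ne_zero _ (Fact.out : p.Prime).ne_zero
    have hQ : p ^ 2 * p ^ 2 ≠ 0 := mul_ne_zero hq hq
    have hrat : IsRat (p ^ 2 * p ^ 2) (![1, 0, 0] : Fin 3 → LL p) := by
      refine ⟨fun h => one_ne_zero (congrFun h 0), fun i => ?_⟩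
      fin_cases i <;> simp [zero_pow hQ]
    have hd := hdet _ hrat
    obtain ⟨a, ha⟩ : ∃ a, gam (p ^ 2) (p ^ 2 * p ^ 2) u' a 0 ≠ 0 := by
      by_contra hcon
      push Not at hcon
      apply hd
      simp [det3, hcon]
    have hx := isPoint_gam (τ := τ) (ν := ν) W hu
    have hy := isPoint_gam (τ := τ) (ν := ν) W ha
    set M := gam (p ^ 2) (p ^ 2 * p ^ 2) u with hM
    set M' := gam (p ^ 2) (p ^ 2 * p ^ 2) u' with hM'
    by_contra hdense
    -- the two points are not proportional
    have hprop : ∀ i j, toX W.w₁ W.c M i * toX W.w₁ W.c M' j =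
        toX W.w₁ W.c M j * toX W.w₁ W.c M' i := by
      intro i j
      by_contra hne
      exact not_dense (surf_geomIrreducible W) hx hy hne hfin hdense
    apply hd
    -- hence the matrices are proportional
    obtain ⟨j0, hj0⟩ : ∃ j, toX W.w₁ W.c M j ≠ 0 := by
      by_contra hcon
      push Not at hcon
      exact hx.1 (funext hcon)
    have hMM : ∀ i j, M' i j = (toX W.w₁ W.c M' j0 / toX W.w₁ W.c M j0) * M i j := by
      intro i j
      have e1 : toX W.w₁ W.c M' = fun l =>
          (toX W.w₁ W.c M' j0 / toX W.w₁ W.c M j0) * toX W.w₁ W.c M l := by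
        funext l
        rw [div_mul_eq_mul_div, eq_div_iff hj0]
        have := hprop j0 l
        linear_combination this
      have e2 := mat_toX W.hc M' i j
      rw [e1, mat_smul, mat_toX W.hc M i j] at e2
      exact e2.symm
    have e3 : ∀ i, M i 2 * M 2 0 = M i 0 * M 2 2 := by
      intro i
      exact (gam_matEq (p := p) (n := 2) u).1 i 2 2 0
    simp only [det3, hMM]
    -- both columns are multiples of the same vector
    simp only [hM, gam]
    ring

end Pool.Agent.RCD
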