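import Pool.Agent.RCD.Points

/-!
Geometry of the surface over an algebraically closed field.
-/

open MvPolynomial

namespace Pool.Agent.RCD

section ring

variable {A : Type} [CommRing A]

/-- the matrix equations -/
def MatEq (q : ℕ) (M : Fin 3 → Fin 3 → A) : Prop :=
  (∀ i j k l, M i j * M k l = M i l * M k j) ∧
  (∀ i k, ∑ j, M i j * (M j k) ^ q = 0) ∧
  (∀ i k, ∑ j, M j i * (M k j) ^ q = 0)

/-- the cross product of `u` and `u^(Q)` -/
def cr (Q : ℕ) (u : Fin 3 → A) (j : Fin 3) : A :=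
  u (j + 1) * u (j + 2) ^ Q - u (j + 2) * u (j + 1) ^ Q

/-- the parametrization -/
def gam (q Q : ℕ) (u : Fin 3 → A) (i j : Fin 3) : A := u i ^ q * cr Q u j

lemma sum_mul_cr (Q : ℕ) (u : Fin 3 → A) : ∑ j, u j * cr Q u j = 0 := by
  simp only [Fin.sum_univ_three, cr]
  have h1 : (1 : Fin 3) + 1 = 2 := rfl
  have h2 : (1 : Fin 3) + 2 = 0 := rfl
  have h3 : (2 : Fin 3) + 1 = 0 := rfl
  have h4 : (2 : Fin 3) + 2 = 1 := rfl
  simp only [h1, h2, h3, h4, zero_add]
  ring

lemma sum_pow_mul_cr (Q : ℕ) (u : Fin 3 → A) : ∑ j, cr Q u j * u j ^ Q = 0 := by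
  simp only [Fin.sum_univ_three, cr]
  have h1 : (1 : Fin 3) + 1 = 2 := rfl
  have h2 : (1 : Fin 3) + 2 = 0 := rfl
  have h3 : (2 : Fin 3) + 1 = 0 := rfl
  have h4 : (2 : Fin 3) + 2 = 1 := rfl
  simp only [h1, h2, h3, h4, zero_add]
  ring

lemma gam_matEq {p n : ℕ} [Fact p.Prime] [CharP A p] (u : Fin 3 → A) :
    MatEq (p ^ n) (gam (p ^ n) (p ^ n * p ^ n) u) := by
  refine ⟨fun i j k l => ?_, fun i k => ?_, fun i k => ?_⟩
  · unfold gam; ring
  · have h : ∀ j, gam (p ^ n) (p ^ n * p ^ n) u i j * (gam (p ^ n) (p ^ n * p ^ n) u j k) ^ (p ^ n)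
        = u i ^ (p ^ n) * (cr (p ^ n * p ^ n) u k) ^ (p ^ n) *
          (cr (p ^ n * p ^ n) u j * u j ^ (p ^ n * p ^ n)) := by
      intro j
      unfold gam
      rw [mul_pow, ← pow_mul]
      ring
    simp only [h]
    rw [← Finset.mul_sum, sum_pow_mul_cr, mul_zero]
  · have h : ∀ j, gam (p ^ n) (p ^ n * p ^ n) u j i * (gam (p ^ n) (p ^ n * p ^ n) u k j) ^ (p ^ n)
        = cr (p ^ n * p ^ n) u i * u k ^ (p ^ n * p ^ n) *
          (u j * cr (p ^ n * p ^ n) u j) ^ (p ^ n) := by
      intro j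
      unfold gam
      rw [mul_pow, ← pow_mul, mul_pow]
      ring
    simp only [h]
    rw [← Finset.mul_sum, ← sum_pow_char_pow, sum_mul_cr,
      zero_pow (pow_ne_zero n (Fact.out : p.Prime).ne_zero), mul_zero]

end ring

section field

variable {L : Type} [Field L]

/-- a point is a rank one matrix -/
lemma MatEq.exists_vec {q : ℕ} {M : Fin 3 → Fin 3 → L} (hM : MatEq q M)
    {a b : Fin 3} (hab : M a b ≠ 0) :
    ∃ (w lam : Fin 3 → L), w a ≠ 0 ∧ lam b ≠ 0 ∧ (∀ i j, M i j = w i * lam j) ∧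
      ∑ j, lam j * w j ^ q = 0 ∧ ∑ j, w j * lam j ^ q = 0 := by
  obtain ⟨h1, h2, h3⟩ := hM
  have hw : ∀ i j, M i j = M i b * (M a j / M a b) := by
    intro i j
    rw [mul_div_assoc', eq_div_iff hab, h1 i j a b]
  refine ⟨fun i => M i b, fun j => M a j / M a b, hab, ?_, hw, ?_, ?_⟩
  · change M a b / M a b ≠ 0
    rw [div_self hab]; exact one_ne_zero
  · have e := h2 a b
    have e2 : ∑ j, M a j * M j b ^ q = M a b * ∑ j, M a j / M a b * M j b ^ q := by
      rw [Finset.mul_sum]
      refine Finset.sum_congr rfl fun j _ => ?_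
      field_simp
    rw [e2] at e
    exact (mul_eq_zero.mp e).resolve_left hab
  · have e := h3 b a
    have e2 : ∑ j, M j b * M a j ^ q = (M a b) ^ q * ∑ j, M j b * (M a j / M a b) ^ q := by
      rw [Finset.mul_sum]
      refine Finset.sum_congr rfl fun j _ => ?_
      rw [div_pow]
      have : M a b ^ q ≠ 0 := pow_ne_zero _ hab
      field_simp
    rw [e2] at e
    exact (mul_eq_zero.mp e).resolve_left (pow_ne_zero _ hab)

/-- vectors orthogonal to `u` and `u^(Q)` are parallel to the cross product -/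
lemma cr_parallel {Q : ℕ} {u lam : Fin 3 → L} (h1 : ∑ j, u j * lam j = 0)
    (h2 : ∑ j, lam j * u j ^ Q = 0) (i j : Fin 3) : lam i * cr Q u j = lam j * cr Q u i := by
  simp only [Fin.sum_univ_three] at h1 h2
  have e1 : (1 : Fin 3) + 1 = 2 := rfl
  have e2 : (1 : Fin 3) + 2 = 0 := rfl
  have e3 : (2 : Fin 3) + 1 = 0 := rfl
  have e4 : (2 : Fin 3) + 2 = 1 := rfl
  fin_cases i <;> fin_cases j <;>
    simp only [cr, Fin.zero_eta, Fin.mk_one, Fin.reduceFinMk, e1, e2, e3, e4, zero_add]
  · linear_combination (-u 2 ^ Q) * h1 + (u 2) * h2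
  · linear_combination (u 1 ^ Q) * h1 - (u 1) * h2
  · linear_combination (u 2 ^ Q) * h1 - (u 2) * h2
  · linear_combination (-u 0 ^ Q) * h1 + (u 0) * h2
  · linear_combination (-u 1 ^ Q) * h1 + (u 1) * h2
  · linear_combination (u 0 ^ Q) * h1 - (u 0) * h2

/-- if the cross product vanishes, `u` is proportional to a vector over the field with `Q`
elements -/
lemma cr_eq_zero {Q : ℕ} {u : Fin 3 → L} (h : ∀ j, cr Q u j = 0) {a : Fin 3} (ha : u a ≠ 0)
    (j : Fin 3) : (u j / u a) ^ Q = u j / u a := by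
  have key : ∀ i j, u i * u j ^ Q = u j * u i ^ Q := by
    have h0 : u 1 * u 2 ^ Q - u 2 * u 1 ^ Q = 0 := h 0
    have h1 : u 2 * u 0 ^ Q - u 0 * u 2 ^ Q = 0 := h 1
    have h2 : u 0 * u 1 ^ Q - u 1 * u 0 ^ Q = 0 := h 2
    intro i j
    fin_cases i <;> fin_cases j <;> simp only [Fin.zero_eta, Fin.mk_one, Fin.reduceFinMk]
    · linear_combination h2
    · linear_combination - h1
    · linear_combination - h2
    · linear_combination h0
    · linear_combination h1
    · linear_combination - h0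
  have h1 := key a j
  rw [div_pow, div_eq_div_iff (pow_ne_zero _ ha) ha]
  linear_combination h1

end field

section maps

variable {A B : Type} [CommRing A] [CommRing B]

lemma map_toX (φ : A →+* B) (w c : A) (M : Fin 3 → Fin 3 → A) (j : Idx) :
    φ (toX w c M j) = toX (φ w) (φ c) (fun i j => φ (M i j)) j := by
  unfold toX
  split_ifs <;> simp

lemma map_mat (φ : A →+* B) (w₁ w₂ : A) (x : Idx → A) (i j : Fin 3) :
    φ (mat w₁ w₂ x i j) = mat (φ w₁) (φ w₂) (fun j => φ (x j)) i j := by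
  unfold mat
  split_ifs <;> simp

lemma toX_smul (w c r : A) (M : Fin 3 → Fin 3 → A) (j : Idx) :
    toX w c (fun i j => r * M i j) j = r * toX w c M j := by
  unfold toX
  split_ifs <;> ring

lemma mat_smul (w₁ w₂ r : A) (x : Idx → A) (i j : Fin 3) :
    mat w₁ w₂ (fun j => r * x j) i j = r * mat w₁ w₂ x i j := by
  unfold mat
  split_ifs <;> ring

lemma map_cr (φ : A →+* B) (Q : ℕ) (u : Fin 3 → A) (j : Fin 3) :
    φ (cr Q u j) = cr Q (fun i => φ (u i)) j := by
  unfold cr
  simp

lemma map_gam (φ : A →+* B) (q Q : ℕ) (u : Fin 3 → A) (i j : Fin 3) :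
    φ (gam q Q u i j) = gam q Q (fun i => φ (u i)) i j := by
  unfold gam
  rw [map_mul, map_pow, map_cr]

lemma toX_zero (w c : A) : toX w c (fun _ _ => 0) = 0 := by
  funext j
  simp [toX]

end maps

set_option linter.unusedSectionVars false

section dominance

variable {p n : ℕ} [Fact p.Prime] {L : Type} [Field L] [IsAlgClosed L] [CharP L p]
  {w₁ w₂ c : L}

lemma exists_frob_root (w : Fin 3 → L) : ∃ u : Fin 3 → L, ∀ i, u i ^ (p ^ n) = w i := by
  have h : ∀ i, ∃ z : L, z ^ (p ^ n) = w i := fun i =>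
    IsAlgClosed.exists_pow_nat_eq (w i) (pow_pos (Fact.out : p.Prime).pos n)
  choose u hu using h
  exact ⟨u, hu⟩

lemma orth_root {w lam u : Fin 3 → L} (hu : ∀ i, u i ^ (p ^ n) = w i)
    (h : ∑ j, w j * lam j ^ (p ^ n) = 0) : ∑ j, u j * lam j = 0 := by
  have h1 : (∑ j, u j * lam j) ^ (p ^ n) = 0 := by
    rw [sum_pow_char_pow, ← h]
    refine Finset.sum_congr rfl fun j _ => ?_
    rw [mul_pow, hu]
  exact pow_eq_zero_iff (pow_ne_zero n (Fact.out : p.Prime).ne_zero) |>.mp h1

lemma orth_root' {w lam u : Fin 3 → L} (hu : ∀ i, u i ^ (p ^ n) = w i)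
    (h : ∑ j, lam j * w j ^ (p ^ n) = 0) : ∑ j, lam j * u j ^ (p ^ n * p ^ n) = 0 := by
  rw [← h]
  refine Finset.sum_congr rfl fun j _ => ?_
  rw [pow_mul, hu]

/-- a point whose cross product does not vanish is in the image of the parametrization -/
lemma point_param {w lam u : Fin 3 → L} (hu : ∀ i, u i ^ (p ^ n) = w i)
    (h1 : ∑ j, lam j * w j ^ (p ^ n) = 0) (h2 : ∑ j, w j * lam j ^ (p ^ n) = 0)
    {b : Fin 3} (hb : lam b ≠ 0) {j0 : Fin 3} (hj : cr (p ^ n * p ^ n) u j0 ≠ 0) :
    ∃ r : L, r ≠ 0 ∧ ∀ i j, w i * lam j = r * gam (p ^ n) (p ^ n * p ^ n) u i j := by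
  have h3 := cr_parallel (orth_root hu h2) (orth_root' hu h1)
  have hcb : lam j0 ≠ 0 := by
    intro h0
    have := h3 j0 b
    rw [h0, zero_mul] at this
    exact (mul_ne_zero hb hj) this.symm
  refine ⟨lam j0 / cr (p ^ n * p ^ n) u j0, div_ne_zero hcb hj, fun i j => ?_⟩
  unfold gam
  rw [hu, div_mul_eq_mul_div, eq_div_iff hj]
  linear_combination (w i) * h3 j j0

/-- the parametrization is dominant -/
theorem dominance (hn : n ≠ 0) (hc : c * (w₁ - w₂) = 1) {G : MvPolynomial Idx L} {d : ℕ}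
    (hG : G.IsHomogeneous d)
    (h : ∀ v : Fin 3 → L, eval (toX w₁ c (gam (p ^ n) (p ^ n * p ^ n) v)) G = 0)
    (x : Idx → L) (hx0 : x ≠ 0) (hx : MatEq (p ^ n) (mat w₁ w₂ x)) : eval x G = 0 := by
  have hscale : ∀ (r : L) (M : Fin 3 → Fin 3 → L),
      eval (toX w₁ c (fun i j => r * M i j)) G = r ^ d * eval (toX w₁ c M) G := by
    intro r M
    have e1 : toX w₁ c (fun i j => r * M i j) = fun j => r * toX w₁ c M j :=
      funext fun j => toX_smul _ _ _ _ j
    have e2 := aeval_scale (A := L) hG r (toX w₁ c M)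
    rw [e1]
    exact e2
  set q := p ^ n with hq
  have hqpos : q ≠ 0 := pow_ne_zero n (Fact.out : p.Prime).ne_zero
  -- a nonzero entry
  obtain ⟨a, b, hab⟩ : ∃ a b, mat w₁ w₂ x a b ≠ 0 := by
    by_contra hcon
    push Not at hcon
    apply hx0
    rw [← toX_mat hc x]
    have : mat w₁ w₂ x = fun _ _ => 0 := by funext i j; exact hcon i j
    rw [this, toX_zero]
  obtain ⟨w, lam, hwa, hlb, hM, h1, h2⟩ := hx.exists_vec hab
  obtain ⟨u, hu⟩ := exists_frob_root (p := p) (n := n) w
  have hxM : x = toX w₁ c (fun i j => w i * lam j) := by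
    rw [← toX_mat hc x]
    congr 1
    funext i j; exact hM i j
  by_cases hcr : ∃ j0, cr (q * q) u j0 ≠ 0
  · obtain ⟨j0, hj0⟩ := hcr
    obtain ⟨r, hr, hr2⟩ := point_param hu h1 h2 hlb hj0
    rw [hxM]
    have : (fun i j => w i * lam j) = fun i j => r * gam q (q * q) u i j := by
      funext i j; exact hr2 i j
    rw [this, hscale, h, mul_zero]
  · push Not at hcr
    have hua : u a ≠ 0 := by
      intro h0
      apply hwa
      rw [← hu a, h0, zero_pow hqpos]
    -- normalize
    set u' : Fin 3 → L := fun j => u j / u a with hu'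
    have hu'a : u' a = 1 := div_self hua
    have hu'Q : ∀ j, u' j ^ (q * q) = u' j := fun j => cr_eq_zero hcr hua j
    have horth : ∑ j, u' j * lam j = 0 := by
      have h3 := orth_root hu h2
      have : ∑ j, u' j * lam j = (u a)⁻¹ * ∑ j, u j * lam j := by
        rw [Finset.mul_sum]
        refine Finset.sum_congr rfl fun j _ => ?_
        simp only [hu']; field_simp
      rw [this, h3, mul_zero]
    -- a vector with cross product `lam`
    have hex : ∃ y : Fin 3 → L, ∀ j, y (j + 1) * u' (j + 2) - y (j + 2) * u' (j + 1) = lam j := by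
      simp only [Fin.sum_univ_three] at horth
      fin_cases a
      · refine ⟨![0, - lam 2, lam 1], fun j => ?_⟩
        simp only [Fin.zero_eta] at hu'a
        fin_cases j
        · change - lam 2 * u' 2 - lam 1 * u' 1 = lam 0
          linear_combination - horth + lam 0 * hu'a
        · change lam 1 * u' 0 - 0 * u' 2 = lam 1
          rw [hu'a]; ring
        · change 0 * u' 1 - (- lam 2) * u' 0 = lam 2
          rw [hu'a]; ring
      · refine ⟨![lam 2, 0, - lam 0], fun j => ?_⟩
        simp only [Fin.mk_one] at hu'a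
        fin_cases j
        · change 0 * u' 2 - (- lam 0) * u' 1 = lam 0
          rw [hu'a]; ring
        · change (- lam 0) * u' 0 - lam 2 * u' 2 = lam 1
          linear_combination - horth + lam 1 * hu'a
        · change lam 2 * u' 1 - 0 * u' 0 = lam 2
          rw [hu'a]; ring
      · refine ⟨![- lam 1, lam 0, 0], fun j => ?_⟩
        simp only [Fin.reduceFinMk] at hu'a
        fin_cases j
        · change lam 0 * u' 2 - 0 * u' 1 = lam 0
          rw [hu'a]; ring
        · change 0 * u' 0 - (- lam 1) * u' 2 = lam 1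
          rw [hu'a]; ring
        · change (- lam 1) * u' 1 - lam 0 * u' 0 = lam 2
          linear_combination - horth + lam 2 * hu'a
    obtain ⟨y, hy⟩ := hex
    -- the family of matrices
    set N : L → Fin 3 → Fin 3 → L := fun ε i j =>
      (u' i + ε * y i) ^ q * (lam j + ε ^ (q * q - 1) *
        (u' (j + 1) * y (j + 2) ^ (q * q) - u' (j + 2) * y (j + 1) ^ (q * q)) +
        ε ^ (q * q) * (y (j + 1) * y (j + 2) ^ (q * q) - y (j + 2) * y (j + 1) ^ (q * q))) with hN
    have hqq : q * q - 1 + 1 = q * q := Nat.succ_pred_eq_of_ne_zero (mul_ne_zero hqpos hqpos)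
    have hNg : ∀ ε, gam q (q * q) (fun i => u' i + ε * y i) = fun i j => ε * N ε i j := by
      intro ε
      funext i j
      have hpw : ∀ i, (u' i + ε * y i) ^ (q * q) = u' i + ε ^ (q * q) * y i ^ (q * q) := by
        intro i
        have e : q * q = p ^ (n + n) := by rw [hq, pow_add]
        rw [e, add_pow_char_pow, ← e, hu'Q, mul_pow]
      simp only [gam, cr, hpw, hN]
      rw [← hy j]
      have e2 : ε ^ (q * q) = ε ^ (q * q - 1) * ε := by rw [← pow_succ, hqq]
      rw [e2]
      ring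
    have hvan : ∀ ε : L, ε ≠ 0 → eval (toX w₁ c (N ε)) G = 0 := by
      intro ε hε
      have e1 := h (fun i => u' i + ε * y i)
      rw [hNg ε, hscale] at e1
      exact (mul_eq_zero.mp e1).resolve_left (pow_ne_zero _ hε)
    -- polynomial in `ε`
    let NT : Fin 3 → Fin 3 → Polynomial L := fun i j =>
      (Polynomial.C (u' i) + Polynomial.X * Polynomial.C (y i)) ^ q *
        (Polynomial.C (lam j) + Polynomial.X ^ (q * q - 1) *
        Polynomial.C (u' (j + 1) * y (j + 2) ^ (q * q) - u' (j + 2) * y (j + 1) ^ (q * q)) +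
        Polynomial.X ^ (q * q) *
          Polynomial.C (y (j + 1) * y (j + 2) ^ (q * q) - y (j + 2) * y (j + 1) ^ (q * q)))
    let PT : Polynomial L := aeval (toX (Polynomial.C w₁) (Polynomial.C c) NT) G
    have hPT : ∀ ε, PT.eval ε = eval (toX w₁ c (N ε)) G := by
      intro ε
      have e1 := comp_aeval_apply (f := toX (Polynomial.C w₁) (Polynomial.C c) NT)
        (Polynomial.aeval ε : Polynomial L →ₐ[L] L) G
      have e2 : (fun i => (Polynomial.aeval ε : Polynomial L →ₐ[L] L)
          (toX (Polynomial.C w₁) (Polynomial.C c) NT i)) = toX w₁ c (N ε) := by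
        funext j
        have e3 := map_toX ((Polynomial.aeval ε : Polynomial L →ₐ[L] L) : Polynomial L →+* L)
          (Polynomial.C w₁) (Polynomial.C c) NT j
        simp only [RingHom.coe_coe] at e3
        rw [e3]
        simp [NT, hN, mul_comm ε]
      rw [e2] at e1
      exact e1
    have hPT0 : PT = 0 := by
      by_contra hne
      have hinf : Set.Infinite {ε : L | ε ≠ 0} := by
        have : {ε : L | ε ≠ 0} = ({0} : Set L)ᶜ := by ext; simp
        rw [this]
        exact (Set.finite_singleton 0).infinite_compl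
      apply hne
      apply Polynomial.eq_zero_of_infinite_isRoot
      refine hinf.mono fun ε hε => ?_
      change PT.eval ε = 0
      rw [hPT]; exact hvan ε hε
    have h0 := hPT 0
    rw [hPT0, Polynomial.eval_zero] at h0
    have hq1 : q * q ≠ 0 := mul_ne_zero hqpos hqpos
    have hq2 : q * q - 1 ≠ 0 := by
      have h3 : 2 ≤ q := by
        have hp2 := (Fact.out : p.Prime).two_le
        calc 2 ≤ p := hp2
          _ = p ^ 1 := (pow_one p).symm
          _ ≤ p ^ n := Nat.pow_le_pow_right (by omega) (Nat.one_le_iff_ne_zero.mpr hn)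
      have : 4 ≤ q * q := Nat.mul_le_mul h3 h3
      omega
    have hN0 : N 0 = fun i j => u' i ^ q * lam j := by
      funext i j
      simp [hN, zero_pow hq1, zero_pow hq2]
    rw [hN0] at h0
    have : (fun i j => w i * lam j) = fun i j => (u a) ^ q * (u' i ^ q * lam j) := by
      funext i j
      have hu2 : ∀ i, u i ^ q = w i := hu
      rw [← hu2 i, hu', div_pow]
      have : u a ^ q ≠ 0 := pow_ne_zero _ hua
      field_simp
    rw [hxM, this, hscale, ← h0, mul_zero]

end dominance

end Pool.Agent.RCD
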