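import Pool.Agent.RCD.Arith

/-!
The surface over `F_p(t)`: its set of rational points is finite and nonempty.
-/

open MvPolynomial
open scoped LinearAlgebra.Projectivization

namespace Pool.Agent.RCD

lemma aeval_scale {σ R A : Type} [CommRing R] [CommRing A] [Algebra R A]
    {f : MvPolynomial σ R} {d : ℕ} (hf : f.IsHomogeneous d) (c : A) (x : σ → A) :
    aeval (fun j => c * x j) f = c ^ d * aeval x f := by
  rw [aeval_def, aeval_def, eval₂_eq, eval₂_eq, Finset.mul_sum]
  refine Finset.sum_congr rfl fun m hm => ?_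
  have h1 : m.degree = d := by
    by_contra hne
    exact (mem_support_iff.mp hm) (hf.coeff_eq_zero hne)
  simp only [mul_pow, Finset.prod_mul_distrib, Finset.prod_pow_eq_pow_sum]
  have h2 : ∑ i ∈ m.support, m i = d := by rw [← h1]; rfl
  rw [h2]; ring

/-- the surface -/
noncomputable def surf (p : ℕ) [Fact p.Prime] (τ ν : ZMod p) :
    ProjScheme (RatFunc (ZMod p)) Idx where
  eqs := MvPolynomial.map (algebraMap (ZMod p) (RatFunc (ZMod p))) '' eqs0 p (p ^ 2) τ ν
  finite_eqs := (eqs0_finite p (p ^ 2) τ ν).image _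
  homogeneous := by
    rintro f ⟨g, hg, rfl⟩
    obtain ⟨d, hd⟩ := eqs0_homog p (p ^ 2) τ ν g hg
    exact ⟨d, hd.map _⟩

variable {p : ℕ} [Fact p.Prime] {τ ν : ZMod p}

lemma surf_eqs_iff {A : Type} [CommRing A] [Algebra (ZMod p) A] [Algebra (RatFunc (ZMod p)) A]
    [IsScalarTower (ZMod p) (RatFunc (ZMod p)) A] (x : Idx → A) :
    (∀ f ∈ (surf p τ ν).eqs, aeval x f = 0) ↔
      (∀ f ∈ eqs0 p (p ^ 2) τ ν, aeval x f = 0) := by
  constructor
  · intro h f hf
    have h1 := h _ ⟨f, hf, rfl⟩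
    rwa [aeval_map_algebraMap] at h1
  · rintro h f ⟨g, hg, rfl⟩
    rw [aeval_map_algebraMap]
    exact h g hg

/-- the map of a constant vector -/
noncomputable def cvec (v : Idx → ZMod p) : Idx → RatFunc (ZMod p) :=
  fun j => algebraMap (ZMod p) (RatFunc (ZMod p)) (v j)

lemma cvec_ne_zero {v : Idx → ZMod p} (hv : v ≠ 0) : cvec v ≠ 0 := by
  intro h
  apply hv
  funext j
  have h1 := congrFun h j
  exact (map_eq_zero (algebraMap (ZMod p) (RatFunc (ZMod p)))).mp h1

lemma surf_points_subset (hcard : ∃ ω : GaloisField p 2, ω ^ p ≠ ω ∧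
      ω + ω ^ p = algebraMap (ZMod p) (GaloisField p 2) τ ∧
      ω * ω ^ p = algebraMap (ZMod p) (GaloisField p 2) ν) :
    (surf p τ ν).rationalPoints ⊆
      Set.range fun v : {v : Idx → ZMod p // v ≠ 0} =>
        Projectivization.mk (RatFunc (ZMod p)) (cvec v.1) (cvec_ne_zero v.2) := by
  obtain ⟨ω, hω, hτ, hν⟩ := hcard
  let _ : Fintype (GaloisField p 2) := Fintype.ofFinite _
  have hc : Fintype.card (GaloisField p 2) = p ^ 2 := by
    rw [← Nat.card_eq_fintype_card]; exact GaloisField.card p 2 (by norm_num)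
  intro P hP
  obtain ⟨hP0, hPe⟩ := hP
  rw [surf_eqs_iff] at hPe
  -- clear denominators
  obtain ⟨d, hd⟩ := IsLocalization.exist_integer_multiples_of_finite
    (nonZeroDivisors (Polynomial (ZMod p))) P.rep
  choose x hx using hd
  set ι := algebraMap (Polynomial (ZMod p)) (RatFunc (ZMod p)) with hι
  have hιinj : Function.Injective ι := RatFunc.algebraMap_injective (ZMod p)
  have hd0 : ι (d : Polynomial (ZMod p)) ≠ 0 :=
    RatFunc.algebraMap_ne_zero (nonZeroDivisors.coe_ne_zero d)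
  have hx' : ∀ j, ι (x j) = ι (d : Polynomial (ZMod p)) * P.rep j := by
    intro j
    rw [hx j, Algebra.smul_def]
  have hx0 : x ≠ 0 := by
    intro h
    apply hP0
    funext j
    have h1 := hx' j
    rw [h, Pi.zero_apply, map_zero] at h1
    exact (mul_eq_zero.mp h1.symm).resolve_left hd0
  have hxe : ∀ f ∈ eqs0 p (p ^ 2) τ ν, aeval x f = 0 := by
    intro f hf
    obtain ⟨n, hn⟩ := eqs0_homog p (p ^ 2) τ ν f hf
    apply hιinj
    rw [map_zero]
    have h1 := comp_aeval_apply (f := x)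
      (IsScalarTower.toAlgHom (ZMod p) (Polynomial (ZMod p)) (RatFunc (ZMod p))) f
    have h2 : (fun i => (IsScalarTower.toAlgHom (ZMod p) (Polynomial (ZMod p))
        (RatFunc (ZMod p))) (x i)) = fun j => ι (d : Polynomial (ZMod p)) * P.rep j := by
      funext j; exact hx' j
    rw [h2, aeval_scale hn, hPe f hf, mul_zero] at h1
    exact h1
  obtain ⟨a, l, v, hxa, hl, hva, hall⟩ := poly_point_const hc hω hτ hν x hx0 hxe
  have hv0 : v ≠ 0 := fun h => hva (congrFun h a)
  refine ⟨⟨v, hv0⟩, ?_⟩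
  have hιC : ∀ r : ZMod p, ι (Polynomial.C r) = algebraMap (ZMod p) (RatFunc (ZMod p)) r := by
    intro r
    rw [IsScalarTower.algebraMap_apply (ZMod p) (Polynomial (ZMod p)) (RatFunc (ZMod p))]
    rfl
  have hl0 : algebraMap (ZMod p) (RatFunc (ZMod p)) l ≠ 0 := by
    intro h
    exact hl ((map_eq_zero _).mp h)
  have hxa0 : ι (x a) ≠ 0 := by
    intro h
    exact hxa (hιinj (by rw [h, map_zero]))
  have hrel : ∀ j, P.rep j =
      (ι (x a) / (algebraMap (ZMod p) (RatFunc (ZMod p)) l * ι (d : Polynomial (ZMod p)))) *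
        cvec v j := by
    intro j
    have h1 := congrArg ι (hall j)
    rw [map_mul, map_mul, hιC, hιC, hx' j] at h1
    rw [div_mul_eq_mul_div, eq_div_iff (mul_ne_zero hl0 hd0)]
    change _ = ι (x a) * algebraMap (ZMod p) (RatFunc (ZMod p)) (v j)
    rw [← h1]; ring
  change Projectivization.mk (RatFunc (ZMod p)) (cvec v) (cvec_ne_zero hv0) = P
  rw [← P.mk_rep]
  rw [Projectivization.mk_eq_mk_iff']
  refine ⟨(ι (x a) / (algebraMap (ZMod p) (RatFunc (ZMod p)) l *
    ι (d : Polynomial (ZMod p))))⁻¹, ?_⟩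
  funext j
  have hne : ι (x a) / (algebraMap (ZMod p) (RatFunc (ZMod p)) l *
    ι (d : Polynomial (ZMod p))) ≠ 0 := div_ne_zero hxa0 (mul_ne_zero hl0 hd0)
  rw [Pi.smul_apply, hrel j, smul_eq_mul, ← mul_assoc, inv_mul_cancel₀ hne, one_mul]

lemma surf_points_finite (hcard : ∃ ω : GaloisField p 2, ω ^ p ≠ ω ∧
      ω + ω ^ p = algebraMap (ZMod p) (GaloisField p 2) τ ∧
      ω * ω ^ p = algebraMap (ZMod p) (GaloisField p 2) ν) :
    (surf p τ ν).rationalPoints.Finite :=
  (Set.finite_range _).subset (surf_points_subset hcard)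

/-- a rational point -/
lemma surf_point_exists : ∃ x : Idx → RatFunc (ZMod p), (surf p τ ν).IsPoint _ x := by
  obtain ⟨a, b, hab⟩ := ZMod.sq_add_sq p (-1)
  let w : Fin 3 → ZMod p := ![a, b, 1]
  let x : Idx → ZMod p := fun ij => if ij.1 ≤ ij.2 then w ij.1 * w ij.2 else 0
  have hs : ∀ i j, sPart τ x i j = w i * w j := by
    intro i j
    unfold sPart
    split_ifs with h1 h2
    · simp [x, h1.le]
    · simp [x, h2]
    · have h3 : j < i := lt_of_le_of_ne (not_lt.mp h1) (Ne.symm h2)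
      have h4 : ¬ i ≤ j := not_le.mpr h3
      simp only [x, h3.le, h4, if_true, if_false]
      ring
  have ht : ∀ i j, tPart x i j = 0 := by
    intro i j
    unfold tPart
    split_ifs with h1 h2
    · have h4 : ¬ j ≤ i := not_le.mpr h1
      simp [x, h4]
    · rfl
    · have h3 : j < i := lt_of_le_of_ne (not_lt.mp h1) (Ne.symm h2)
      have h4 : ¬ i ≤ j := not_le.mpr h3
      simp [x, h4]
  have hx : ∀ f ∈ eqs0 p (p ^ 2) τ ν, aeval x f = 0 := by
    rw [eqs0_iff_parts]
    have hq : p ^ 2 ≠ 0 := pow_ne_zero _ (Fact.out : p.Prime).ne_zero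
    have hfr : ∀ z : ZMod p, z ^ (p ^ 2) = z := by
      intro z
      rw [sq, pow_mul, ZMod.pow_card, ZMod.pow_card]
    refine ⟨fun i j k l => ⟨?_, ?_⟩, fun i k => ⟨?_, ?_⟩⟩
    · simp only [Algebra.algebraMap_self, RingHom.id_apply, minRe, hs, ht]
      ring
    · simp only [Algebra.algebraMap_self, RingHom.id_apply, minIm, hs, ht]
      ring
    · simp only [Algebra.algebraMap_self, RingHom.id_apply, herRe, hs, ht, hfr]
      simp only [Fin.sum_univ_three, w]
      simp
      linear_combination (w i * w k) * hab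
    · simp only [Algebra.algebraMap_self, RingHom.id_apply, herIm, hs, ht, zero_pow hq]
      simp
  refine ⟨cvec x, ?_, ?_⟩
  · apply cvec_ne_zero
    intro h
    have := congrFun h (2, 2)
    simp [x, w] at this
  · rw [surf_eqs_iff]
    intro f hf
    have h1 := comp_aeval_apply (f := x) (Algebra.ofId (ZMod p) (RatFunc (ZMod p))) f
    rw [hx f hf, map_zero] at h1
    exact h1.symm

end Pool.Agent.RCD
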