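import Pool.Agent.RCD.Geom

/-!
Irreducibility, unirationality and rational connectedness of the surface.
-/

open MvPolynomial

namespace Pool.Agent.RCD

/-- the algebraic closure of `F_p(t)` -/
abbrev LL (p : ℕ) [Fact p.Prime] : Type := AlgebraicClosure (RatFunc (ZMod p))

section setup

variable (p : ℕ) [Fact p.Prime]

instance charP_LL : CharP (LL p) p :=
  charP_of_injective_algebraMap (algebraMap (ZMod p) (LL p)).injective p

/-- the data of the two conjugate elements -/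
structure WData (τ ν : ZMod p) where
  w₁ : LL p
  w₂ : LL p
  c : LL p
  hc : c * (w₁ - w₂) = 1
  hτ : w₁ + w₂ = algebraMap (ZMod p) (LL p) τ
  hν : w₁ * w₂ = algebraMap (ZMod p) (LL p) ν
  h₁ : w₁ ^ (p ^ 2) = w₁
  h₂ : w₂ ^ (p ^ 2) = w₂

variable {p} {τ ν : ZMod p}

lemma exists_wdata (hcard : ∃ ω : GaloisField p 2, ω ^ p ≠ ω ∧
      ω + ω ^ p = algebraMap (ZMod p) (GaloisField p 2) τ ∧
      ω * ω ^ p = algebraMap (ZMod p) (GaloisField p 2) ν) : Nonempty (WData p τ ν) := by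
  obtain ⟨ω, hω, hτ, hν⟩ := hcard
  let _ : Fintype (GaloisField p 2) := Fintype.ofFinite _
  have hc : Fintype.card (GaloisField p 2) = p ^ 2 := by
    rw [← Nat.card_eq_fintype_card]; exact GaloisField.card p 2 (by norm_num)
  have hpp : ∀ z : GaloisField p 2, z ^ (p ^ 2) = z := by
    intro z
    rw [← hc]; exact FiniteField.pow_card z
  let φ : GaloisField p 2 →ₐ[ZMod p] LL p := IsAlgClosed.lift
  have hne : φ ω - φ (ω ^ p) ≠ 0 := by
    rw [← map_sub]
    intro h
    have := (map_eq_zero φ).mp h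
    exact hω (sub_eq_zero.mp this).symm
  exact ⟨{
    w₁ := φ ω
    w₂ := φ (ω ^ p)
    c := (φ ω - φ (ω ^ p))⁻¹
    hc := inv_mul_cancel₀ hne
    hτ := by rw [← map_add, hτ]; exact φ.commutes τ
    hν := by rw [← map_mul, hν]; exact φ.commutes ν
    h₁ := by rw [← map_pow, hpp]
    h₂ := by rw [← map_pow, hpp] }⟩

variable (W : WData p τ ν)

lemma isPoint_iff (x : Idx → LL p) :
    (surf p τ ν).IsPoint (LL p) x ↔ x ≠ 0 ∧ MatEq (p ^ 2) (mat W.w₁ W.w₂ x) := by
  unfold ProjScheme.IsPoint MatEq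
  rw [surf_eqs_iff, eqs0_iff W.hc W.hτ W.hν W.h₁ W.h₂]

/-- polynomial solutions -/
lemma poly_eqs {σ : Type} (M : Fin 3 → Fin 3 → MvPolynomial σ (LL p))
    (hM : MatEq (p ^ 2) M) :
    ∀ f ∈ (surf p τ ν).eqs, aeval (toX (C W.w₁) (C W.c) M) f = 0 := by
  have hc : (C W.c : MvPolynomial σ (LL p)) * (C W.w₁ - C W.w₂) = 1 := by
    rw [← C_sub, ← C_mul, W.hc, C_1]
  rw [surf_eqs_iff, eqs0_iff (w₂ := C W.w₂) hc]
  · have e : mat (C W.w₁) (C W.w₂) (toX (C W.w₁) (C W.c) M) = M := by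
      funext i j; exact mat_toX hc M i j
    rw [e]
    exact hM
  · rw [← C_add, W.hτ]; rfl
  · rw [← C_mul, W.hν]; rfl
  · rw [← C_pow, W.h₁]
  · rw [← C_pow, W.h₂]

lemma eval_toX {σ : Type} (v : σ → LL p) (M : Fin 3 → Fin 3 → MvPolynomial σ (LL p))
    (j : Idx) : eval v (toX (C W.w₁) (C W.c) M j) =
      toX W.w₁ W.c (fun i j => eval v (M i j)) j := by
  rw [map_toX (eval v), eval_C, eval_C]

omit [Fact p.Prime] in
lemma toX_homog {R σ : Type} [CommRing R] {w c : R} {M : Fin 3 → Fin 3 → MvPolynomial σ R}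
    {e : ℕ} (hM : ∀ i j, (M i j).IsHomogeneous e) (j : Idx) :
    (toX (C w) (C c) M j).IsHomogeneous e := by
  unfold toX
  split_ifs
  · refine (hM _ _).sub ?_
    have h1 : (M j.1 j.2 - M j.2 j.1).IsHomogeneous e := (hM _ _).sub (hM _ _)
    have h2 := (h1.C_mul c).C_mul w
    exact h2
  · exact hM _ _
  · have h1 : (M j.2 j.1 - M j.1 j.2).IsHomogeneous e := (hM _ _).sub (hM _ _)
    exact h1.C_mul c

omit [Fact p.Prime] in
lemma gam_homog {R σ : Type} [CommRing R] {U : Fin 3 → MvPolynomial σ R} {q Q : ℕ}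
    (hU : ∀ i, (U i).IsHomogeneous 1) (i j : Fin 3) :
    (gam q Q U i j).IsHomogeneous (q + (1 + Q)) := by
  unfold gam cr
  have h1 : ∀ (i : Fin 3) (m : ℕ), (U i ^ m).IsHomogeneous m := by
    intro i m
    simpa using (hU i).pow m
  exact (h1 _ _).mul (((hU _).mul (h1 _ _)).sub ((hU _).mul (h1 _ _)))

/-- the vectors over the field with `Q` elements -/
def IsRat (Q : ℕ) (v : Fin 3 → LL p) : Prop := v ≠ 0 ∧ ∀ i, v i ^ Q = v i

/-- determinant -/
def det3 {A : Type} [CommRing A] (a b c : Fin 3 → A) : A :=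
  a 0 * (b 1 * c 2 - b 2 * c 1) + a 1 * (b 2 * c 0 - b 0 * c 2) + a 2 * (b 0 * c 1 - b 1 * c 0)

lemma isRat_finite {Q : ℕ} (hQ : 1 < Q) : {v : Fin 3 → LL p | IsRat Q v}.Finite := by
  classical
  have h1 : {z : LL p | z ^ Q = z}.Finite := by
    have hne : (Polynomial.X ^ Q - Polynomial.X : Polynomial (LL p)) ≠ 0 :=
      FiniteField.X_pow_card_sub_X_ne_zero _ hQ
    refine (Polynomial.X ^ Q - Polynomial.X : Polynomial (LL p)).roots.toFinset.finite_toSet.subset
      fun z hz => ?_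
    rw [Finset.mem_coe, Multiset.mem_toFinset, Polynomial.mem_roots hne]
    have : z ^ Q = z := hz
    simp [this]
  have h2 : (Set.univ.pi fun _ : Fin 3 => {z : LL p | z ^ Q = z}).Finite :=
    Set.Finite.pi fun _ => h1
  refine h2.subset fun v hv => ?_
  intro i _
  exact hv.2 i

/-- general position implies that the cross product does not vanish -/
lemma cr_ne_zero {q Q : ℕ} {w w' U : Fin 3 → LL p} {s s' : LL p}
    (hdet : ∀ v, IsRat Q v → det3 w w' v ≠ 0) (hU : U ≠ 0)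
    (hUq : ∀ i, U i ^ q = s * w i + s' * w' i) : ∃ j, cr Q U j ≠ 0 := by
  by_contra hcon
  push Not at hcon
  obtain ⟨a, ha⟩ : ∃ a, U a ≠ 0 := by
    by_contra h
    push Not at h
    exact hU (funext h)
  have h1 := cr_eq_zero hcon ha
  refine hdet (fun i => (U i / U a) ^ q) ⟨?_, fun i => ?_⟩ ?_
  · intro h
    have := congrFun h a
    simp only [div_self ha, one_pow, Pi.zero_apply] at this
    exact one_ne_zero this
  · change ((U i / U a) ^ q) ^ Q = (U i / U a) ^ q
    rw [← pow_mul, mul_comm, pow_mul, h1]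
  · simp only [det3, div_pow, hUq]
    have : U a ^ q ≠ 0 := pow_ne_zero _ ha
    field_simp
    ring

lemma nezero_toX {M : Fin 3 → Fin 3 → LL p} {i j : Fin 3} (h : M i j ≠ 0) :
    toX W.w₁ W.c M ≠ 0 := by
  intro h0
  apply h
  have h1 := mat_toX W.hc M i j
  rw [h0] at h1
  rw [← h1]
  unfold mat
  split_ifs <;> simp

lemma one_lt_q2 : 1 < p ^ 2 * p ^ 2 := by
  have hp := (Fact.out : p.Prime).two_le
  have h1 : 4 ≤ p ^ 2 := by nlinarith
  nlinarith

/-- there is a transcendental-like element -/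
lemma exists_T : ∃ T : LL p, T ^ (p ^ 2 * p ^ 2) ≠ T ∧
    ∀ v : Fin 3 → LL p, IsRat (p ^ 2 * p ^ 2) v → v 0 * T ^ 2 - v 1 * T + v 2 ≠ 0 := by
  classical
  have hfin := isRat_finite (p := p) (one_lt_q2 (p := p))
  let P : Polynomial (LL p) :=
    (Polynomial.X ^ (p ^ 2 * p ^ 2) - Polynomial.X) *
      ∏ v ∈ hfin.toFinset, (Polynomial.C (v 0) * Polynomial.X ^ 2 -
        Polynomial.C (v 1) * Polynomial.X + Polynomial.C (v 2))
  have hP : P ≠ 0 := by
    refine mul_ne_zero (FiniteField.X_pow_card_sub_X_ne_zero _ (one_lt_q2 (p := p))) ?_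
    rw [Finset.prod_ne_zero_iff]
    intro v hv
    rw [Set.Finite.mem_toFinset] at hv
    intro h
    apply hv.1
    have h0 := congrArg (fun f => Polynomial.coeff f 0) h
    have h1 := congrArg (fun f => Polynomial.coeff f 1) h
    have h2 := congrArg (fun f => Polynomial.coeff f 2) h
    simp [Polynomial.coeff_X, Polynomial.coeff_C] at h0 h1 h2
    funext i
    fin_cases i
    · exact h2
    · exact h1
    · exact h0
  obtain ⟨T, hT⟩ : ∃ T, P.eval T ≠ 0 := by
    by_contra hcon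
    push Not at hcon
    apply hP
    apply Polynomial.funext
    intro r
    rw [hcon r, Polynomial.eval_zero]
  refine ⟨T, ?_, fun v hv => ?_⟩
  · intro h
    apply hT
    simp [P, h]
  · intro h
    apply hT
    have hmem : v ∈ hfin.toFinset := by rw [Set.Finite.mem_toFinset]; exact hv
    simp only [P, Polynomial.eval_mul, Polynomial.eval_prod]
    rw [Finset.prod_eq_zero hmem, mul_zero]
    simpa using h

/-- the two special parameters -/
lemma exists_pair : ∃ (u u' : Fin 3 → LL p),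
    gam (p ^ 2) (p ^ 2 * p ^ 2) u 0 2 ≠ 0 ∧
    ∀ v : Fin 3 → LL p, IsRat (p ^ 2 * p ^ 2) v →
      det3 (fun i => gam (p ^ 2) (p ^ 2 * p ^ 2) u i 2)
        (fun i => gam (p ^ 2) (p ^ 2 * p ^ 2) u' i 0) v ≠ 0 := by
  obtain ⟨T, hT, hv⟩ := exists_T (p := p)
  have hq : p ^ 2 ≠ 0 := pow_ne_zero _ (Fact.out : p.Prime).ne_zero
  have hQ : p ^ 2 * p ^ 2 ≠ 0 := mul_ne_zero hq hq
  obtain ⟨t, ht⟩ := IsAlgClosed.exists_pow_nat_eq T (Nat.pos_of_ne_zero hq)
  have htQ : t ^ (p ^ 2 * p ^ 2) - t ≠ 0 := by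
    intro h
    apply hT
    have h1 : t ^ (p ^ 2 * p ^ 2) = t := sub_eq_zero.mp h
    rw [← ht, ← pow_mul, mul_comm (p ^ 2) (p ^ 2 * p ^ 2), pow_mul, h1]
  have e1 : (2 : Fin 3) + 1 = 0 := rfl
  have e2 : (2 : Fin 3) + 2 = 1 := rfl
  refine ⟨![1, t, 0], ![0, 1, t], ?_, fun v hv2 => ?_⟩
  · simp only [gam, cr, e1, e2]
    simp
    exact htQ
  · have h3 := hv v hv2
    have e3 : (0 : Fin 3) + 1 = 1 := rfl
    have e4 : (0 : Fin 3) + 2 = 2 := rfl
    have : det3 (fun i => gam (p ^ 2) (p ^ 2 * p ^ 2) (![1, t, 0] : Fin 3 → LL p) i 2)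
        (fun i => gam (p ^ 2) (p ^ 2 * p ^ 2) (![0, 1, t] : Fin 3 → LL p) i 0) v =
        (t ^ (p ^ 2 * p ^ 2) - t) ^ 2 * (v 0 * T ^ 2 - v 1 * T + v 2) := by
      simp only [det3, gam, cr, e1, e2, e3, e4]
      simp only [Matrix.cons_val_zero, Matrix.cons_val_one, Matrix.cons_val, ht,
        zero_pow hq, one_pow]
      ring
    rw [this]
    exact mul_ne_zero (pow_ne_zero _ htQ) h3

/-- points from parameters -/
lemma isPoint_gam (W : WData p τ ν) {u : Fin 3 → LL p} {i j : Fin 3}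
    (h : gam (p ^ 2) (p ^ 2 * p ^ 2) u i j ≠ 0) :
    (surf p τ ν).IsPoint (LL p) (toX W.w₁ W.c (gam (p ^ 2) (p ^ 2 * p ^ 2) u)) := by
  rw [isPoint_iff W]
  refine ⟨nezero_toX W h, ?_⟩
  have e : mat W.w₁ W.w₂ (toX W.w₁ W.c (gam (p ^ 2) (p ^ 2 * p ^ 2) u)) =
      gam (p ^ 2) (p ^ 2 * p ^ 2) u := by
    funext i j; exact mat_toX W.hc _ i j
  rw [e]
  exact gam_matEq u

/-- the generic parametrization -/
noncomputable def rho (W : WData p τ ν) (j : Idx) : MvPolynomial (Fin 3) (LL p) :=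
  toX (C W.w₁) (C W.c) (gam (p ^ 2) (p ^ 2 * p ^ 2) (X : Fin 3 → MvPolynomial (Fin 3) (LL p))) j

lemma eval_rho (W : WData p τ ν) (v : Fin 3 → LL p) (j : Idx) :
    eval v (rho W j) = toX W.w₁ W.c (gam (p ^ 2) (p ^ 2 * p ^ 2) v) j := by
  unfold rho
  rw [eval_toX]
  congr 1
  funext i j
  rw [map_gam (eval v)]
  simp

lemma eval_aeval_rho (W : WData p τ ν) (G : MvPolynomial Idx (LL p)) (v : Fin 3 → LL p) :
    eval v (aeval (rho W) G) = eval (toX W.w₁ W.c (gam (p ^ 2) (p ^ 2 * p ^ 2) v)) G := by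
  have h1 := comp_aeval_apply (f := rho W) (aeval v : MvPolynomial (Fin 3) (LL p) →ₐ[LL p] LL p) G
  have h2 : (fun i => (aeval v : MvPolynomial (Fin 3) (LL p) →ₐ[LL p] LL p) (rho W i)) =
      toX W.w₁ W.c (gam (p ^ 2) (p ^ 2 * p ^ 2) v) := by
    funext j
    exact eval_rho W v j
  rw [h2] at h1
  exact h1

lemma rho_ne_zero (W : WData p τ ν) : ∃ j, rho W j ≠ 0 := by
  obtain ⟨u, -, hu, -⟩ := exists_pair (p := p)
  have h1 := (isPoint_gam (τ := τ) (ν := ν) W hu).1
  by_contra hcon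
  push Not at hcon
  apply h1
  funext j
  rw [← eval_rho, hcon j, map_zero]; rfl

theorem surf_geomUnirational (W : WData p τ ν) : (surf p τ ν).GeomUnirational := by
  refine ⟨2, p ^ 2 + (1 + p ^ 2 * p ^ 2), rho W, fun j => ?_, rho_ne_zero W, ?_, ?_⟩
  · exact toX_homog (fun i j => gam_homog (fun i => isHomogeneous_X _ _) i j) j
  · exact poly_eqs W _ (gam_matEq _)
  · rintro G ⟨d, hG⟩ h x hx
    rw [isPoint_iff W] at hx
    refine dominance two_ne_zero W.hc hG (fun v => ?_) x hx.1 hx.2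
    rw [← eval_aeval_rho, h, map_zero]

theorem surf_geomIrreducible (W : WData p τ ν) : (surf p τ ν).GeomIrreducible := by
  obtain ⟨u, -, hu, -⟩ := exists_pair (p := p)
  refine ⟨⟨_, isPoint_gam W hu⟩, ?_⟩
  rintro G H ⟨d, hG⟩ ⟨e, hH⟩ hGH
  obtain ⟨j0, hj0⟩ := rho_ne_zero W
  have hprod : aeval (rho W) G * aeval (rho W) H * rho W j0 = 0 := by
    apply MvPolynomial.funext
    intro v
    rw [map_mul, map_mul, map_zero, eval_aeval_rho, eval_aeval_rho, eval_rho]
    by_cases hv : toX W.w₁ W.c (gam (p ^ 2) (p ^ 2 * p ^ 2) v) j0 = 0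
    · rw [hv, mul_zero]
    · have hne : ∃ i j, gam (p ^ 2) (p ^ 2 * p ^ 2) v i j ≠ 0 := by
        by_contra hcon
        push Not at hcon
        apply hv
        have : gam (p ^ 2) (p ^ 2 * p ^ 2) v = fun _ _ => 0 := by
          funext i j; exact hcon i j
        rw [this, toX_zero]; rfl
      obtain ⟨i, j, hij⟩ := hne
      have h1 := hGH _ (isPoint_gam (τ := τ) (ν := ν) W hij)
      rw [map_mul] at h1
      rw [h1, zero_mul]
  have hzero : aeval (rho W) G = 0 ∨ aeval (rho W) H = 0 := by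
    rcases mul_eq_zero.mp hprod with h | h
    · exact mul_eq_zero.mp h
    · exact absurd h hj0
  rcases hzero with h | h
  · left
    intro x hx
    rw [isPoint_iff W] at hx
    refine dominance two_ne_zero W.hc hG (fun v => ?_) x hx.1 hx.2
    rw [← eval_aeval_rho, h, map_zero]
  · right
    intro x hx
    rw [isPoint_iff W] at hx
    refine dominance two_ne_zero W.hc hH (fun v => ?_) x hx.1 hx.2
    rw [← eval_aeval_rho, h, map_zero]

/-- two points in general position lie on a rational curve -/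
theorem surf_onCurve (W : WData p τ ν) (x y : Idx → LL p)
    (hx : (surf p τ ν).IsPoint (LL p) x) (hy : (surf p τ ν).IsPoint (LL p) y)
    (hdet : ∀ v : Fin 3 → LL p, IsRat (p ^ 2 * p ^ 2) v →
      det3 (fun i => mat W.w₁ W.w₂ x i 2) (fun i => mat W.w₁ W.w₂ y i 0) v ≠ 0) :
    (surf p τ ν).OnRationalCurve x y := by
  rw [isPoint_iff W] at hx hy
  have hq : p ^ 2 ≠ 0 := pow_ne_zero _ (Fact.out : p.Prime).ne_zero
  have hQ : p ^ 2 * p ^ 2 ≠ 0 := mul_ne_zero hq hq
  set q := p ^ 2 with hqdef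
  have hrat : IsRat (q * q) (![1, 0, 0] : Fin 3 → LL p) := by
    refine ⟨fun h => one_ne_zero (congrFun h 0), fun i => ?_⟩
    fin_cases i <;> simp [zero_pow hQ]
  have hdet0 := hdet _ hrat
  -- nonzero columns
  obtain ⟨a, ha⟩ : ∃ a, mat W.w₁ W.w₂ x a 2 ≠ 0 := by
    by_contra hcon
    push Not at hcon
    apply hdet0
    simp [det3, hcon]
  obtain ⟨a', ha'⟩ : ∃ a, mat W.w₁ W.w₂ y a 0 ≠ 0 := by
    by_contra hcon
    push Not at hcon
    apply hdet0
    simp [det3, hcon]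
  obtain ⟨w, lam, hwa, hlam, hM, h1, h2⟩ := hx.2.exists_vec ha
  obtain ⟨w', lam', hwa', hlam', hM', h1', h2'⟩ := hy.2.exists_vec ha'
  have hdet' : ∀ v : Fin 3 → LL p, IsRat (q * q) v → det3 w w' v ≠ 0 := by
    intro v hv h0
    apply hdet v hv
    simp only [hM, hM']
    have : det3 (fun i => w i * lam 2) (fun i => w' i * lam' 0) v =
        lam 2 * lam' 0 * det3 w w' v := by
      simp only [det3]; ring
    rw [this, h0, mul_zero]
  obtain ⟨u, hu⟩ := exists_frob_root (p := p) (n := 2) w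
  obtain ⟨u', hu'⟩ := exists_frob_root (p := p) (n := 2) w'
  have hune : u ≠ 0 := by
    rintro rfl
    apply hwa
    rw [← hu a, Pi.zero_apply, zero_pow hq]
  have hune' : u' ≠ 0 := by
    rintro rfl
    apply hwa'
    rw [← hu' a', Pi.zero_apply, zero_pow hq]
  obtain ⟨j0, hj0⟩ := cr_ne_zero (q := q) (s := 1) (s' := 0) hdet' hune (fun i => by
    rw [hu i]; ring)
  obtain ⟨j0', hj0'⟩ := cr_ne_zero (q := q) (s := 0) (s' := 1) hdet' hune' (fun i => by
    rw [hu' i]; ring)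
  obtain ⟨r, hr, hr2⟩ := point_param hu h1 h2 hlam hj0
  obtain ⟨r', hr', hr2'⟩ := point_param hu' h1' h2' hlam' hj0'
  -- the curve
  let U : Fin 3 → MvPolynomial (Fin 2) (LL p) := fun i => C (u i) * X 0 + C (u' i) * X 1
  have hUhom : ∀ i, (U i).IsHomogeneous 1 := fun i =>
    (isHomogeneous_C_mul_X _ _).add (isHomogeneous_C_mul_X _ _)
  have hUeval : ∀ (s : Fin 2 → LL p) i, eval s (U i) = u i * s 0 + u' i * s 1 := by
    intro s i
    simp [U]
  have hgeval : ∀ (s : Fin 2 → LL p) j,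
      eval s (toX (C W.w₁) (C W.c) (gam q (q * q) U) j) =
        toX W.w₁ W.c (gam q (q * q) (fun i => u i * s 0 + u' i * s 1)) j := by
    intro s j
    rw [eval_toX]
    congr 1
    funext i j
    rw [map_gam (eval s)]
    simp only [hUeval]
  refine ⟨q + (1 + q * q), toX (C W.w₁) (C W.c) (gam q (q * q) U), fun j => ?_, fun s hs => ?_,
    ?_, ?_, ?_⟩
  · exact toX_homog (fun i j => gam_homog hUhom i j) j
  · have hUs : (fun i => u i * s 0 + u' i * s 1) ≠ 0 := by
      intro h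
      have h3 : ∀ i, w i * s 0 ^ q + w' i * s 1 ^ q = 0 := by
        intro i
        have h4 := congrFun h i
        simp only [Pi.zero_apply] at h4
        have h5 := congrArg (fun z => z ^ (p ^ 2)) h4
        simp only [add_pow_char_pow, mul_pow, hu, hu'] at h5
        exact h5.trans (zero_pow hq)
      have h6 : s 0 ^ q * det3 w w' ![1, 0, 0] = 0 := by
        have e1 := h3 1
        have e2 := h3 2
        simp only [det3, Matrix.cons_val_zero, Matrix.cons_val_one, Matrix.cons_val]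
        linear_combination w' 2 * e1 - w' 1 * e2
      have h7 : s 1 ^ q * det3 w w' ![1, 0, 0] = 0 := by
        have e1 := h3 1
        have e2 := h3 2
        simp only [det3, Matrix.cons_val_zero, Matrix.cons_val_one, Matrix.cons_val]
        linear_combination w 1 * e2 - w 2 * e1
      apply hs
      have hd := hdet' _ hrat
      have h8 : s 0 = 0 := (pow_eq_zero_iff hq).mp ((mul_eq_zero.mp h6).resolve_right hd)
      have h9 : s 1 = 0 := (pow_eq_zero_iff hq).mp ((mul_eq_zero.mp h7).resolve_right hd)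
      funext i
      fin_cases i
      · exact h8
      · exact h9
    obtain ⟨j1, hj1⟩ := cr_ne_zero (q := q) (s := s 0 ^ q) (s' := s 1 ^ q) hdet' hUs (fun i => by
      have : (u i * s 0 + u' i * s 1) ^ (p ^ 2) =
        (u i * s 0) ^ (p ^ 2) + (u' i * s 1) ^ (p ^ 2) := add_pow_char_pow _ _ p 2
      rw [hqdef, this, mul_pow, mul_pow, hu, hu']; ring)
    obtain ⟨a1, ha1⟩ : ∃ a, (fun i => u i * s 0 + u' i * s 1) a ≠ 0 := by
      by_contra h
      push Not at h
      exact hUs (funext h)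
    have hg : gam q (q * q) (fun i => u i * s 0 + u' i * s 1) a1 j1 ≠ 0 :=
      mul_ne_zero (pow_ne_zero _ ha1) hj1
    have h10 := nezero_toX W hg
    by_contra hcon
    push Not at hcon
    apply h10
    funext j
    rw [← hgeval, hcon j]; rfl
  · exact poly_eqs W _ (gam_matEq _)
  · refine ⟨![1, 0], r⁻¹, fun h => one_ne_zero (congrFun h 0), inv_ne_zero hr, fun j => ?_⟩
    rw [hgeval]
    have e1 : (fun i => u i * (![1, 0] : Fin 2 → LL p) 0 + u' i * (![1, 0] : Fin 2 → LL p) 1) = u := by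
      funext i; simp
    rw [e1]
    have e2 : x = toX W.w₁ W.c (fun i j => r * gam q (q * q) u i j) := by
      rw [← toX_mat W.hc x]
      congr 1
      funext i j
      rw [hM]; exact hr2 i j
    rw [e2, toX_smul, ← mul_assoc, inv_mul_cancel₀ hr, one_mul]
  · refine ⟨![0, 1], r'⁻¹, fun h => one_ne_zero (congrFun h 1), inv_ne_zero hr', fun j => ?_⟩
    rw [hgeval]
    have e1 : (fun i => u i * (![0, 1] : Fin 2 → LL p) 0 + u' i * (![0, 1] : Fin 2 → LL p) 1) = u' := by
      funext i; simp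
    rw [e1]
    have e2 : y = toX W.w₁ W.c (fun i j => r' * gam q (q * q) u' i j) := by
      rw [← toX_mat W.hc y]
      congr 1
      funext i j
      rw [hM']; exact hr2' i j
    rw [e2, toX_smul, ← mul_assoc, inv_mul_cancel₀ hr', one_mul]

theorem surf_rationallyConnected (W : WData p τ ν) : (surf p τ ν).RationallyConnected := by
  classical
  have hfin := isRat_finite (p := p) (one_lt_q2 (p := p))
  let B : MvPolynomial (Idx ⊕ Idx) (LL p) :=
    ∏ v ∈ hfin.toFinset,
      det3 (fun i => mat (C W.w₁) (C W.w₂) (fun j => X (Sum.inl j)) i 2)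
        (fun i => mat (C W.w₁) (C W.w₂) (fun j => X (Sum.inr j)) i 0) (fun i => C (v i))
  have hB : ∀ x y : Idx → LL p, eval (Sum.elim x y) B = ∏ v ∈ hfin.toFinset,
      det3 (fun i => mat W.w₁ W.w₂ x i 2) (fun i => mat W.w₁ W.w₂ y i 0) v := by
    intro x y
    simp only [B, map_prod, det3, map_add, map_mul, map_sub, map_mat (eval (Sum.elim x y)),
      eval_C, eval_X, Sum.elim_inl, Sum.elim_inr]
  refine ⟨B, ?_, fun x y hx hy hxy => ?_⟩
  · obtain ⟨u, u', hu, hdet⟩ := exists_pair (p := p)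
    have hq : p ^ 2 ≠ 0 := pow_ne_zero _ (Fact.out : p.Prime).ne_zero
    have hQ : p ^ 2 * p ^ 2 ≠ 0 := mul_ne_zero hq hq
    have hrat : IsRat (p ^ 2 * p ^ 2) (![1, 0, 0] : Fin 3 → LL p) := by
      refine ⟨fun h => one_ne_zero (congrFun h 0), fun i => ?_⟩
      fin_cases i <;> simp [zero_pow hQ]
    obtain ⟨a, ha⟩ : ∃ a, gam (p ^ 2) (p ^ 2 * p ^ 2) u' a 0 ≠ 0 := by
      by_contra hcon
      push Not at hcon
      apply hdet _ hrat
      simp [det3, hcon]
    refine ⟨_, _, isPoint_gam W hu, isPoint_gam W ha, ?_⟩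
    rw [hB, Finset.prod_ne_zero_iff]
    intro v hv
    rw [Set.Finite.mem_toFinset] at hv
    simp only [mat_toX W.hc]
    exact hdet v hv
  · rw [hB, Finset.prod_ne_zero_iff] at hxy
    refine surf_onCurve W x y hx hy fun v hv => hxy v ?_
    rw [Set.Finite.mem_toFinset]; exact hv

end setup

end Pool.Agent.RCD
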