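import Pool.Agent.RCD.Rc

/-!
Smoothness of the surface.
-/

open MvPolynomial

namespace Pool.Agent.RCD

variable {p : ℕ} [Fact p.Prime] {τ ν : ZMod p}

lemma eqs0_forall {q : ℕ} {A : Type} [CommRing A] [Algebra (ZMod p) A] (x : Idx → A)
    (P : A → Prop) :
    (∀ f ∈ eqs0 p q τ ν, P (aeval x f)) ↔
    (∀ i j k l, P (minRe (algebraMap (ZMod p) A ν) (sPart (algebraMap (ZMod p) A τ) x)
          (tPart x) i j k l) ∧
        P (minIm (algebraMap (ZMod p) A τ) (sPart (algebraMap (ZMod p) A τ) x)
          (tPart x) i j k l)) ∧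
    (∀ i k, P (herRe q (algebraMap (ZMod p) A ν) (sPart (algebraMap (ZMod p) A τ) x)
          (tPart x) i k) ∧
        P (herIm q (algebraMap (ZMod p) A τ) (sPart (algebraMap (ZMod p) A τ) x)
          (tPart x) i k)) := by
  have e1 : ∀ i j k l, aeval x (minRe (C ν) (sPart (C τ) X) (tPart X) i j k l) =
      minRe (algebraMap (ZMod p) A ν) (sPart (algebraMap (ZMod p) A τ) x) (tPart x) i j k l := by
    intro i j k l
    simp only [minRe, map_sub, map_mul, aeval_sPart, aeval_tPart, aeval_C]
  have e2 : ∀ i j k l, aeval x (minIm (C τ) (sPart (C τ) X) (tPart X) i j k l) =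
      minIm (algebraMap (ZMod p) A τ) (sPart (algebraMap (ZMod p) A τ) x) (tPart x) i j k l := by
    intro i j k l
    simp only [minIm, map_sub, map_add, map_mul, aeval_sPart, aeval_tPart, aeval_C]
  have e3 : ∀ i k, aeval x (herRe q (C ν) (sPart (C τ) X) (tPart X) i k) =
      herRe q (algebraMap (ZMod p) A ν) (sPart (algebraMap (ZMod p) A τ) x) (tPart x) i k := by
    intro i k
    simp only [herRe, map_sub, map_sum, map_mul, map_pow, aeval_sPart, aeval_tPart, aeval_C]
  have e4 : ∀ i k, aeval x (herIm q (C τ) (sPart (C τ) X) (tPart X) i k) =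
      herIm q (algebraMap (ZMod p) A τ) (sPart (algebraMap (ZMod p) A τ) x) (tPart x) i k := by
    intro i k
    simp only [herIm, map_add, map_sum, map_mul, map_pow, aeval_sPart, aeval_tPart, aeval_C]
  constructor
  · intro h
    refine ⟨fun i j k l => ⟨?_, ?_⟩, fun i k => ⟨?_, ?_⟩⟩
    · rw [← e1]; exact h _ (Or.inl (Or.inl (Or.inl ⟨((i, j), (k, l)), rfl⟩)))
    · rw [← e2]; exact h _ (Or.inl (Or.inl (Or.inr ⟨((i, j), (k, l)), rfl⟩)))
    · rw [← e3]; exact h _ (Or.inl (Or.inr ⟨(i, k), rfl⟩))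
    · rw [← e4]; exact h _ (Or.inr ⟨(i, k), rfl⟩)
  · rintro ⟨hm, hh⟩ f hf
    rcases hf with ((⟨a, rfl⟩ | ⟨a, rfl⟩) | ⟨a, rfl⟩) | ⟨a, rfl⟩
    · rw [e1]; exact (hm _ _ _ _).1
    · rw [e2]; exact (hm _ _ _ _).2
    · rw [e3]; exact (hh _ _).1
    · rw [e4]; exact (hh _ _).2

section local_eqs

variable {R : Type} [CommRing R] (q : ℕ) (m : Fin 3 → Fin 3 → R) (a b : Fin 3)

/-- index set of the local equations -/
abbrev Kap (a b : Fin 3) : Type := ({i : Fin 3 // i ≠ a} × {j : Fin 3 // j ≠ b}) ⊕ Bool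

/-- the local equations -/
def loc : Kap a b → R
  | Sum.inl ij => m ij.1 ij.2 * m a b - m ij.1 b * m a ij.2
  | Sum.inr true => ∑ j, m a j * m j b ^ q
  | Sum.inr false => ∑ j, m j b * m a j ^ q

lemma minor_quot {I : Ideal R} (h : ∀ k, loc q m a b k ∈ I) (i j : Fin 3) :
    Ideal.Quotient.mk I (m i j) * Ideal.Quotient.mk I (m a b) =
      Ideal.Quotient.mk I (m i b) * Ideal.Quotient.mk I (m a j) := by
  rw [← map_mul, ← map_mul, Ideal.Quotient.eq]
  by_cases hi : i = a
  · subst hi
    have : m i j * m i b - m i b * m i j = 0 := by ring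
    rw [this]; exact I.zero_mem
  · by_cases hj : j = b
    · subst hj
      have : m i j * m a j - m i j * m a j = 0 := by ring
      rw [this]; exact I.zero_mem
    · exact h (Sum.inl (⟨i, hi⟩, ⟨j, hj⟩))

lemma min_mem {I : Ideal R} (h : ∀ k, loc q m a b k ∈ I) (i j k l : Fin 3) :
    m a b ^ (q + 2) * (m i j * m k l - m i l * m k j) ∈ I := by
  rw [← Ideal.Quotient.eq_zero_iff_mem, map_mul, map_sub, map_mul, map_mul, map_pow]
  have h1 := minor_quot q m a b h i j
  have h2 := minor_quot q m a b h k l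
  have h3 := minor_quot q m a b h i l
  have h4 := minor_quot q m a b h k j
  generalize Ideal.Quotient.mk I (m a b) = μ at *
  generalize Ideal.Quotient.mk I (m i j) = x1 at *
  generalize Ideal.Quotient.mk I (m k l) = x2 at *
  generalize Ideal.Quotient.mk I (m i l) = x3 at *
  generalize Ideal.Quotient.mk I (m k j) = x4 at *
  have e : μ ^ (q + 2) * (x1 * x2 - x3 * x4) =
      μ ^ q * ((x1 * μ) * (x2 * μ) - (x3 * μ) * (x4 * μ)) := by ring
  rw [e, h1, h2, h3, h4]; ring

lemma her_mem {I : Ideal R} (h : ∀ k, loc q m a b k ∈ I) (i k : Fin 3) :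
    m a b ^ (q + 2) * (∑ j, m i j * m j k ^ q) ∈ I := by
  have hF : ∑ j, Ideal.Quotient.mk I (m a j) * Ideal.Quotient.mk I (m j b) ^ q = 0 := by
    have := h (Sum.inr true)
    rw [← Ideal.Quotient.eq_zero_iff_mem] at this
    simpa [loc] using this
  rw [← Ideal.Quotient.eq_zero_iff_mem, map_mul, map_sum, map_pow]
  have hterm : ∀ j, Ideal.Quotient.mk I (m a b) ^ (q + 2) *
      Ideal.Quotient.mk I (m i j * m j k ^ q) =
      (Ideal.Quotient.mk I (m a b) * Ideal.Quotient.mk I (m i b) *
        Ideal.Quotient.mk I (m a k) ^ q) *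
      (Ideal.Quotient.mk I (m a j) * Ideal.Quotient.mk I (m j b) ^ q) := by
    intro j
    have h1 := minor_quot q m a b h i j
    have h2 := minor_quot q m a b h j k
    rw [map_mul, map_pow]
    calc _ = Ideal.Quotient.mk I (m a b) * (Ideal.Quotient.mk I (m i j) *
          Ideal.Quotient.mk I (m a b)) *
          (Ideal.Quotient.mk I (m j k) * Ideal.Quotient.mk I (m a b)) ^ q := by ring
      _ = _ := by rw [h1, h2]; ring
  rw [Finset.mul_sum]
  simp only [hterm]
  rw [← Finset.mul_sum, hF, mul_zero]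

lemma her_mem' {I : Ideal R} (h : ∀ k, loc q m a b k ∈ I) (i k : Fin 3) :
    m a b ^ (q + 2) * (∑ j, m j i * m k j ^ q) ∈ I := by
  have hF : ∑ j, Ideal.Quotient.mk I (m j b) * Ideal.Quotient.mk I (m a j) ^ q = 0 := by
    have := h (Sum.inr false)
    rw [← Ideal.Quotient.eq_zero_iff_mem] at this
    simpa [loc] using this
  rw [← Ideal.Quotient.eq_zero_iff_mem, map_mul, map_sum, map_pow]
  have hterm : ∀ j, Ideal.Quotient.mk I (m a b) ^ (q + 2) *
      Ideal.Quotient.mk I (m j i * m k j ^ q) =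
      (Ideal.Quotient.mk I (m a b) * Ideal.Quotient.mk I (m a i) *
        Ideal.Quotient.mk I (m k b) ^ q) *
      (Ideal.Quotient.mk I (m j b) * Ideal.Quotient.mk I (m a j) ^ q) := by
    intro j
    have h1 := minor_quot q m a b h j i
    have h2 := minor_quot q m a b h k j
    rw [map_mul, map_pow]
    calc _ = Ideal.Quotient.mk I (m a b) * (Ideal.Quotient.mk I (m j i) *
          Ideal.Quotient.mk I (m a b)) *
          (Ideal.Quotient.mk I (m k j) * Ideal.Quotient.mk I (m a b)) ^ q := by ring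
      _ = _ := by rw [h1, h2]; ring
  rw [Finset.mul_sum]
  simp only [hterm]
  rw [← Finset.mul_sum, hF, mul_zero]

end local_eqs

lemma pair_mem {R : Type} [CommRing R] {I : Ideal R} {w₁ w₂ c : R} (hc : c * (w₁ - w₂) = 1)
    {h x y : R} (h1 : h * (x + w₁ * y) ∈ I) (h2 : h * (x + w₂ * y) ∈ I) :
    h * x ∈ I ∧ h * y ∈ I := by
  have hy : h * y ∈ I := by
    have e : h * y = c * (h * (x + w₁ * y) - h * (x + w₂ * y)) := by
      linear_combination (- h * y) * hc
    rw [e]
    exact I.mul_mem_left _ (I.sub_mem h1 h2)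
  refine ⟨?_, hy⟩
  have e : h * x = h * (x + w₁ * y) - w₁ * (h * y) := by ring
  rw [e]
  exact I.sub_mem h1 (I.mul_mem_left _ hy)

section gradient

variable {L : Type} [Field L] {q : ℕ} {w₁ w₂ c : L}

/-- directional derivative at `x` in the direction `v` -/
noncomputable def dird (x v : Idx → L) (f : MvPolynomial Idx L) : L :=
  ∑ j, v j * eval x (pderiv j f)

lemma dird_mul (x v : Idx → L) (f g : MvPolynomial Idx L) :
    dird x v (f * g) = eval x f * dird x v g + eval x g * dird x v f := by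
  unfold dird
  rw [Finset.mul_sum, Finset.mul_sum, ← Finset.sum_add_distrib]
  refine Finset.sum_congr rfl fun j _ => ?_
  rw [pderiv_mul, map_add, map_mul, map_mul]
  ring

lemma dird_add (x v : Idx → L) (f g : MvPolynomial Idx L) :
    dird x v (f + g) = dird x v f + dird x v g := by
  unfold dird
  rw [← Finset.sum_add_distrib]
  refine Finset.sum_congr rfl fun j _ => ?_
  rw [map_add, map_add]; ring

lemma dird_sub (x v : Idx → L) (f g : MvPolynomial Idx L) :
    dird x v (f - g) = dird x v f - dird x v g := by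
  unfold dird
  rw [← Finset.sum_sub_distrib]
  refine Finset.sum_congr rfl fun j _ => ?_
  rw [map_sub, map_sub]; ring

lemma dird_sum (x v : Idx → L) {ι : Type} (s : Finset ι) (f : ι → MvPolynomial Idx L) :
    dird x v (∑ i ∈ s, f i) = ∑ i ∈ s, dird x v (f i) := by
  classical
  induction s using Finset.induction_on with
  | empty => simp [dird]
  | insert a s ha ih => rw [Finset.sum_insert ha, Finset.sum_insert ha, dird_add, ih]

lemma dird_C (x v : Idx → L) (r : L) : dird x v (C r) = 0 := by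
  simp [dird]

lemma dird_X (x v : Idx → L) (i : Idx) : dird x v (X i) = v i := by
  unfold dird
  rw [Finset.sum_eq_single i]
  · rw [pderiv_X_self, map_one, mul_one]
  · intro j _ hj
    rw [pderiv_X_of_ne (Ne.symm hj), map_zero, mul_zero]
  · intro h
    exact absurd (Finset.mem_univ i) h

lemma dird_pow {p n : ℕ} [Fact p.Prime] [CharP L p] (hn : n ≠ 0) (x v : Idx → L)
    (f : MvPolynomial Idx L) : dird x v (f ^ (p ^ n)) = 0 := by
  unfold dird
  refine Finset.sum_eq_zero fun j _ => ?_
  rw [pderiv_pow]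
  have : ((p ^ n : ℕ) : MvPolynomial Idx L) = 0 := by
    rw [Nat.cast_pow, CharP.cast_eq_zero, zero_pow hn]
  rw [this]
  simp

/-- the matrix of coordinate functions -/
noncomputable def cm (w₁ w₂ : L) (i j : Fin 3) : MvPolynomial Idx L :=
  mat (C w₁) (C w₂) X i j

lemma eval_cm (x : Idx → L) (i j : Fin 3) : eval x (cm w₁ w₂ i j) = mat w₁ w₂ x i j := by
  unfold cm
  rw [map_mat (eval x)]
  simp

lemma dird_cm (x v : Idx → L) (i j : Fin 3) : dird x v (cm w₁ w₂ i j) = mat w₁ w₂ v i j := by
  unfold cm mat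
  split_ifs <;> simp [dird_add, dird_mul, dird_X, dird_C]

/-- elementary matrices -/
def elm (i₀ j₀ : Fin 3) (i j : Fin 3) : L := if i = i₀ ∧ j = j₀ then 1 else 0

theorem grad_indep {p n : ℕ} [Fact p.Prime] [CharP L p] (hn : n ≠ 0)
    (hc : c * (w₁ - w₂) = 1) (x : Idx → L) (hx : MatEq (p ^ n) (mat w₁ w₂ x))
    {a b : Fin 3} (hab : mat w₁ w₂ x a b ≠ 0) :
    LinearIndependent L (fun k : Kap a b => fun j : Idx =>
      eval x (pderiv j (loc (p ^ n) (cm w₁ w₂) a b k))) := by
  classical
  rw [Fintype.linearIndependent_iff]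
  intro g hg
  set M := mat w₁ w₂ x with hM
  have hq0 : p ^ n ≠ 0 := pow_ne_zero n (Fact.out : p.Prime).ne_zero
  -- pair with a direction
  have hdir : ∀ v : Idx → L, ∑ k, g k * dird x v (loc (p ^ n) (cm w₁ w₂) a b k) = 0 := by
    intro v
    have h1 : ∀ j, ∑ k, g k * eval x (pderiv j (loc (p ^ n) (cm w₁ w₂) a b k)) = 0 := by
      intro j
      have := congrFun hg j
      simpa using this
    unfold dird
    calc ∑ k, g k * ∑ j, v j * eval x (pderiv j (loc (p ^ n) (cm w₁ w₂) a b k))
        = ∑ k, ∑ j, v j * (g k * eval x (pderiv j (loc (p ^ n) (cm w₁ w₂) a b k))) := by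
          refine Finset.sum_congr rfl fun k _ => ?_
          rw [Finset.mul_sum]
          refine Finset.sum_congr rfl fun j _ => ?_
          ring
      _ = ∑ j, ∑ k, v j * (g k * eval x (pderiv j (loc (p ^ n) (cm w₁ w₂) a b k))) :=
          Finset.sum_comm
      _ = 0 := by
          refine Finset.sum_eq_zero fun j _ => ?_
          rw [← Finset.mul_sum, h1, mul_zero]
  have hmain : ∀ N : Fin 3 → Fin 3 → L,
      (∑ ij : {i : Fin 3 // i ≠ a} × {j : Fin 3 // j ≠ b}, g (Sum.inl ij) *
        (M ij.1 ij.2 * N a b + M a b * N ij.1 ij.2 - (M ij.1 b * N a ij.2 + M a ij.2 * N ij.1 b)))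
      + (g (Sum.inr true) * (∑ j, M j b ^ (p ^ n) * N a j)
      + g (Sum.inr false) * (∑ j, M a j ^ (p ^ n) * N j b)) = 0 := by
    intro N
    have h1 := hdir (toX w₁ c N)
    rw [Fintype.sum_sum_type, Fintype.sum_bool] at h1
    simp only [loc, dird_sub, dird_mul, dird_sum, dird_pow hn, dird_cm, mat_toX hc, eval_cm,
      map_pow, mul_zero, zero_add] at h1
    exact h1
  have hinl : ∀ ij : {i : Fin 3 // i ≠ a} × {j : Fin 3 // j ≠ b}, g (Sum.inl ij) = 0 := by
    rintro ⟨⟨i, hi⟩, ⟨j, hj⟩⟩
    have h1 := hmain (elm i j)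
    have hNab : (elm i j a b : L) = 0 := by
      simp [elm, Ne.symm hi]
    have hNa : ∀ l, (elm i j a l : L) = 0 := by
      intro l; simp [elm, Ne.symm hi]
    have hNb : ∀ l, (elm i j l b : L) = 0 := by
      intro l; simp [elm, Ne.symm hj]
    simp only [hNa, hNb, mul_zero, Finset.sum_const_zero, add_zero, zero_add, sub_zero] at h1
    rw [Finset.sum_eq_single (⟨⟨i, hi⟩, ⟨j, hj⟩⟩ :
      {i : Fin 3 // i ≠ a} × {j : Fin 3 // j ≠ b})] at h1
    · simp only [elm, and_self, if_true, mul_one] at h1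
      exact (mul_eq_zero.mp h1).resolve_right hab
    · rintro ⟨⟨i', hi'⟩, ⟨j', hj'⟩⟩ _ hne
      have : ¬ (i' = i ∧ j' = j) := by
        rintro ⟨rfl, rfl⟩
        exact hne rfl
      simp only [elm, this, if_false, mul_zero]
    · intro h
      exact absurd (Finset.mem_univ _) h
  have hmain2 : ∀ N : Fin 3 → Fin 3 → L,
      g (Sum.inr true) * (∑ j, M j b ^ (p ^ n) * N a j)
      + g (Sum.inr false) * (∑ j, M a j ^ (p ^ n) * N j b) = 0 := by
    intro N
    have h1 := hmain N
    simp only [hinl, zero_mul, Finset.sum_const_zero, zero_add] at h1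
    exact h1
  have htrue : g (Sum.inr true) = 0 := by
    by_contra hne
    have hz : ∀ j, j ≠ b → M j b = 0 := by
      intro j hj
      have h1 := hmain2 (elm a j)
      have hNb : ∀ l, (elm a j l b : L) = 0 := by
        intro l; simp [elm, Ne.symm hj]
      simp only [hNb, mul_zero, Finset.sum_const_zero, add_zero] at h1
      rw [Finset.sum_eq_single j] at h1
      · simp only [elm, and_self, if_true, mul_one] at h1
        exact (pow_eq_zero_iff hq0).mp ((mul_eq_zero.mp h1).resolve_left hne)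
      · intro l _ hl
        simp [elm, hl]
      · intro h
        exact absurd (Finset.mem_univ _) h
    have hab' : a = b := by
      by_contra h
      exact hab (hz a h)
    subst hab'
    have h1 := hx.2.1 a a
    rw [Finset.sum_eq_single a] at h1
    · exact mul_ne_zero hab (pow_ne_zero _ hab) h1
    · intro j _ hj
      rw [hz j hj, zero_pow hq0, mul_zero]
    · intro h
      exact absurd (Finset.mem_univ _) h
  have hfalse : g (Sum.inr false) = 0 := by
    by_contra hne
    have hz : ∀ j, j ≠ a → M a j = 0 := by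
      intro j hj
      have h1 := hmain2 (elm j b)
      rw [htrue, zero_mul, zero_add] at h1
      rw [Finset.sum_eq_single j] at h1
      · simp only [elm, and_self, if_true, mul_one] at h1
        exact (pow_eq_zero_iff hq0).mp ((mul_eq_zero.mp h1).resolve_left hne)
      · intro l _ hl
        simp [elm, hl]
      · intro h
        exact absurd (Finset.mem_univ _) h
    have hab' : b = a := by
      by_contra h
      exact hab (hz b h)
    subst hab'
    have h1 := hx.2.2 b b
    rw [Finset.sum_eq_single b] at h1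
    · exact mul_ne_zero hab (pow_ne_zero _ hab) h1
    · intro j _ hj
      rw [hz j hj, zero_pow hq0, mul_zero]
    · intro h
      exact absurd (Finset.mem_univ _) h
  rintro (ij | t)
  · exact hinl ij
  · cases t
    · exact hfalse
    · exact htrue

end gradient

lemma card_Kap (a b : Fin 3) : Fintype.card (Kap a b) = 6 := by
  fin_cases a <;> fin_cases b <;> rfl

theorem surf_smooth (W : WData p τ ν) : (surf p τ ν).SmoothOfDim 2 := by
  intro x hx
  rw [isPoint_iff W] at hx
  obtain ⟨a, b, hab⟩ : ∃ a b, mat W.w₁ W.w₂ x a b ≠ 0 := by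
    by_contra hcon
    push Not at hcon
    apply hx.1
    rw [← toX_mat W.hc x]
    have : mat W.w₁ W.w₂ x = fun _ _ => 0 := by funext i j; exact hcon i j
    rw [this, toX_zero]
  let e : Fin 6 ≃ Kap a b := (Fintype.equivFinOfCardEq (card_Kap a b)).symm
  let R := MvPolynomial Idx (LL p)
  let m : Fin 3 → Fin 3 → R := cm W.w₁ W.w₂
  let f : Fin 6 → R := fun i => loc (p ^ 2) m a b (e i)
  have hcR : (C W.c : R) * (C W.w₁ - C W.w₂) = 1 := by
    rw [← C_sub, ← C_mul, W.hc, C_1]
  have hτR : (C W.w₁ : R) + C W.w₂ = algebraMap (ZMod p) R τ := by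
    rw [← C_add, W.hτ]; rfl
  have hνR : (C W.w₁ : R) * C W.w₂ = algebraMap (ZMod p) R ν := by
    rw [← C_mul, W.hν]; rfl
  have h₁R : (C W.w₁ : R) ^ (p ^ 2) = C W.w₁ := by rw [← C_pow, W.h₁]
  have h₂R : (C W.w₂ : R) ^ (p ^ 2) = C W.w₂ := by rw [← C_pow, W.h₂]
  have k1 : (C W.w₁ : R) * C W.w₁ = algebraMap (ZMod p) R τ * C W.w₁ - algebraMap (ZMod p) R ν := by
    rw [← hτR, ← hνR]; ring
  have k2 : (C W.w₂ : R) * C W.w₂ = algebraMap (ZMod p) R τ * C W.w₂ - algebraMap (ZMod p) R ν := by
    rw [← hτR, ← hνR]; ring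
  -- the geometric equations as values at the generic point
  have hgeom : (surf p τ ν).geomEqs =
      (fun g => aeval (X : Idx → R) g) '' eqs0 p (p ^ 2) τ ν := by
    unfold ProjScheme.geomEqs surf
    rw [Set.image_image]
    refine Set.image_congr fun g _ => ?_
    rw [MvPolynomial.map_map, ← IsScalarTower.algebraMap_eq]
    have h1 := aeval_map_algebraMap (σ := Idx) (R := ZMod p) (LL p) (X : Idx → R) g
    rw [aeval_X_left_apply] at h1
    exact h1
  -- the parts
  have hmin : ∀ i j k l, minRe (algebraMap (ZMod p) R ν) (sPart (algebraMap (ZMod p) R τ) X)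
        (tPart X) i j k l + C W.w₁ * minIm (algebraMap (ZMod p) R τ)
        (sPart (algebraMap (ZMod p) R τ) X) (tPart X) i j k l =
        m i j * m k l - m i l * m k j := by
    intro i j k l
    rw [min_add k1]
    simp only [← mat_eq hτR]
    rfl
  have hmin' : ∀ i j k l, minRe (algebraMap (ZMod p) R ν) (sPart (algebraMap (ZMod p) R τ) X)
        (tPart X) i j k l + C W.w₂ * minIm (algebraMap (ZMod p) R τ)
        (sPart (algebraMap (ZMod p) R τ) X) (tPart X) i j k l =
        m j i * m l k - m l i * m j k := by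
    intro i j k l
    rw [min_add k2]
    simp only [← mat_eq' hτR]
    rfl
  have hher : ∀ i k, herRe (p ^ 2) (algebraMap (ZMod p) R ν)
        (sPart (algebraMap (ZMod p) R τ) X) (tPart X) i k +
        C W.w₁ * herIm (p ^ 2) (algebraMap (ZMod p) R τ) (sPart (algebraMap (ZMod p) R τ) X)
        (tPart X) i k = ∑ j, m i j * m j k ^ (p ^ 2) := by
    intro i k
    rw [her_add k1 h₁R]
    simp only [← mat_eq hτR]
    rfl
  have hher' : ∀ i k, herRe (p ^ 2) (algebraMap (ZMod p) R ν)
        (sPart (algebraMap (ZMod p) R τ) X) (tPart X) i k +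
        C W.w₂ * herIm (p ^ 2) (algebraMap (ZMod p) R τ) (sPart (algebraMap (ZMod p) R τ) X)
        (tPart X) i k = ∑ j, m j i * m k j ^ (p ^ 2) := by
    intro i k
    rw [her_add k2 h₂R]
    simp only [← mat_eq' hτR]
    rfl
  refine ⟨6, f, m a b ^ (p ^ 2 + 2), rfl, fun i => ?_, ?_, ?_, ?_⟩
  · -- membership
    have hmem : ∀ g ∈ eqs0 p (p ^ 2) τ ν, aeval (X : Idx → R) g ∈
        Ideal.span (surf p τ ν).geomEqs := by
      intro g hg
      apply Ideal.subset_span
      rw [hgeom]
      exact ⟨g, hg, rfl⟩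
    rw [eqs0_forall (X : Idx → R) (fun r => r ∈ Ideal.span (surf p τ ν).geomEqs)] at hmem
    obtain ⟨hm1, hm2⟩ := hmem
    have hall : ∀ k : Kap a b, loc (p ^ 2) m a b k ∈ Ideal.span (surf p τ ν).geomEqs := by
      rintro (ij | t)
      · change m ij.1 ij.2 * m a b - m ij.1 b * m a ij.2 ∈ _
        rw [← hmin]
        exact Ideal.add_mem _ (hm1 _ _ _ _).1 (Ideal.mul_mem_left _ _ (hm1 _ _ _ _).2)
      · cases t
        · change ∑ j, m j b * m a j ^ (p ^ 2) ∈ _
          rw [← hher']
          exact Ideal.add_mem _ (hm2 _ _).1 (Ideal.mul_mem_left _ _ (hm2 _ _).2)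
        · change ∑ j, m a j * m j b ^ (p ^ 2) ∈ _
          rw [← hher]
          exact Ideal.add_mem _ (hm2 _ _).1 (Ideal.mul_mem_left _ _ (hm2 _ _).2)
    exact hall (e i)
  · -- independence
    have h1 := grad_indep (c := W.c) (p := p) (n := 2) two_ne_zero W.hc x hx.2 hab
    have h2 := h1.comp e e.injective
    exact h2
  · have h3 : eval x (m a b) = mat W.w₁ W.w₂ x a b := eval_cm x a b
    rw [map_pow, h3]
    exact pow_ne_zero _ hab
  · intro g hg
    rw [hgeom] at hg
    obtain ⟨g0, hg0, rfl⟩ := hg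
    have hloc : ∀ k, loc (p ^ 2) m a b k ∈ Ideal.span (Set.range f) := by
      intro k
      apply Ideal.subset_span
      refine ⟨e.symm k, ?_⟩
      simp [f]
    refine (eqs0_forall (X : Idx → R) (fun r => m a b ^ (p ^ 2 + 2) * r ∈
      Ideal.span (Set.range f))).mpr ⟨fun i j k l => ?_, fun i k => ?_⟩ g0 hg0
    · refine pair_mem hcR ?_ ?_
      · rw [hmin]; exact min_mem _ m a b hloc i j k l
      · rw [hmin']
        have h5 := min_mem _ m a b hloc j i l k
        have e5 : m j i * m l k - m l i * m j k = m j i * m l k - m j k * m l i := by ring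
        rw [e5]; exact h5
    · refine pair_mem hcR ?_ ?_
      · rw [hher]; exact her_mem _ m a b hloc i k
      · rw [hher']; exact her_mem' _ m a b hloc i k

end Pool.Agent.RCD
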